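import Mathlib

/-!
# HH: polarised Hodge structures given by period matrices: definitions

`ℤ^ι` is a lattice of cycles, `P` the matrix of the integrals of the forms `ω_x` over the basis of this lattice.
-/

namespace Pool.Agent.Helper79.HH

open Matrix

variable {ι : Type} [Fintype ι] [DecidableEq ι]

/-- The part of type `p` of the Hodge decomposition of the complex vector space `ℂ^ι` of cycles, for the weight
`j` and the period matrix `P` (with rows `ω_x` of level `lev x`: the forms of level at least `p` are a basis of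
`F^p`): the vectors `v` such that the forms of level greater than `p` vanish on `v` and the forms of level
greater than `j - p` vanish on the conjugate of `v`. It is the dual of `H^(p, j-p)`. -/
def hodgePart (lev : ι → ℤ) (j : ℤ) (P : Matrix ι ι ℂ) (p : ℤ) : Submodule ℂ (ι → ℂ) where
  carrier := {v | ∀ x, (p < lev x → (P *ᵥ v) x = 0) ∧ (j - p < lev x → (P *ᵥ star v) x = 0)}
  add_mem' := by
    intro u v hu hv x
    refine ⟨fun h => ?_, fun h => ?_⟩
    · rw [Matrix.mulVec_add, Pi.add_apply, (hu x).1 h, (hv x).1 h, add_zero]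
    · rw [star_add, Matrix.mulVec_add, Pi.add_apply, (hu x).2 h, (hv x).2 h, add_zero]
  zero_mem' := by
    intro x
    refine ⟨fun _ => ?_, fun _ => ?_⟩
    · rw [Matrix.mulVec_zero, Pi.zero_apply]
    · rw [star_zero, Matrix.mulVec_zero, Pi.zero_apply]
  smul_mem' := by
    intro c v hv x
    refine ⟨fun h => ?_, fun h => ?_⟩
    · rw [Matrix.mulVec_smul, Pi.smul_apply, (hv x).1 h, smul_zero]
    · rw [star_smul, Matrix.mulVec_smul, Pi.smul_apply, (hv x).2 h, smul_zero]

/-- The value `ψ(u, v)` of the rational form with matrix `ψ`. -/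
noncomputable def form (ψ : Matrix ι ι ℚ) (u v : ι → ℂ) : ℂ := u ⬝ᵥ (ψ.map (Rat.cast : ℚ → ℂ) *ᵥ v)

/-- The parts `hodgePart` are a Hodge structure of weight `-j` on `ℚ^ι`, polarised by `ψ`: they span
`ℂ^ι`, they are orthogonal for the Hermitian form attached to `ψ`, and this form is definite on each of them, with
the sign required (so the sum of the parts is direct, and `ψ` is nondegenerate and `(-1)^j`-symmetric). -/
structure IsPolarized (lev : ι → ℤ) (j : ℤ) (ψ : Matrix ι ι ℚ) (P : Matrix ι ι ℂ) : Prop where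
  span : ⨆ p, hodgePart lev j P p = ⊤
  orth : ∀ p q, p ≠ q → ∀ u ∈ hodgePart lev j P p, ∀ v ∈ hodgePart lev j P q, form ψ u (star v) = 0
  pos : ∀ p, ∀ v ∈ hodgePart lev j P p, v ≠ 0 →
    ∃ c : ℝ, 0 < c ∧ Complex.I ^ (2 * p - j) * form ψ v (star v) = c

/-- `D` is the Hodge operator: it acts as `2 p - j` on the part of type `p`. -/
def IsHodgeOp (lev : ι → ℤ) (j : ℤ) (P D : Matrix ι ι ℂ) : Prop :=
  ∀ p, ∀ v ∈ hodgePart lev j P p, D *ᵥ v = ((2 * p - j : ℤ) : ℂ) • v

/-- The point `1 + ε X` with coordinates in the dual numbers. -/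
noncomputable def onePlus (X : Matrix ι ι ℂ) : Matrix ι ι (DualNumber ℂ) :=
  Matrix.of fun a b => TrivSqZeroExt.inl ((1 : Matrix ι ι ℂ) a b) + TrivSqZeroExt.inr (X a b)

/-- The tangent space at the identity of the Zariski closure of a set `S` of complex matrices: the matrices `X`
such that all polynomials which vanish on `S` vanish at `1 + ε X`, `ε^2 = 0`. If `S` is a group, it is the Lie
algebra of its Zariski closure. -/
def tangent (S : Set (Matrix ι ι ℂ)) : Set (Matrix ι ι ℂ) :=
  {X | ∀ q : MvPolynomial (ι × ι) ℂ, (∀ g ∈ S, MvPolynomial.aeval (fun e => g e.1 e.2) q = 0) →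
    MvPolynomial.aeval (fun e => onePlus X e.1 e.2) q = 0}

/-- The complex span of a space of rational matrices. -/
noncomputable def cx {K L : Type} (g : Submodule ℚ (Matrix K L ℚ)) : Submodule ℂ (Matrix K L ℂ) :=
  Submodule.span ℂ ((fun Z : Matrix K L ℚ => Z.map (Rat.cast : ℚ → ℂ)) '' (g : Set (Matrix K L ℚ)))

end Pool.Agent.Helper79.HH
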