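import Pool.Agent.Helper79.HH.RelPoly

/-!
# HH: at points without relations of bounded degree the Mumford-Tate group contains the monodromy group
-/

namespace Pool.Agent.Helper79.HH

open Matrix Pool.Agent.Helper79.BB Pool.Agent.Helper64.Per
open scoped Kronecker

variable {ι : Type} [Fintype ι] [DecidableEq ι]

section

variable {lev deg : ι → ℤ} {P Q : Matrix ι ι ℂ} (h1 : Low lev deg (P * Q)) (h2 : Low deg lev (P * Q)⁻¹)
  (hP : IsUnit P.det) (hQ : IsUnit Q.det)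
include h1 h2 hP hQ

theorem low_adm : Low (dd lev) (dd deg) (adm P * adm Q) := by
  rw [← adm_mul]
  exact h1.kron h2

theorem low_adm_inv : Low (dd deg) (dd lev) ((adm Q)⁻¹ * (adm P)⁻¹) := by
  have hPQ : IsUnit (P * Q).det := by rw [Matrix.det_mul]; exact hP.mul hQ
  have h3 : (adm Q)⁻¹ * (adm P)⁻¹ = (P * Q)⁻¹ ⊗ₖ (P * Q)ᵀ := by
    rw [adm_inv hP, adm_inv hQ, ← adm_mul, ← Matrix.mul_inv_rev, adm,
      Matrix.nonsing_inv_nonsing_inv _ hPQ]
  rw [h3]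
  exact h2.kron h1

theorem low_to_deg {T : Matrix (ι × ι) (ι × ι) ℂ}
    (hT : Low (dd lev) (dd lev) (adm P * T * (adm P)⁻¹)) :
    Low (dd deg) (dd deg) ((adm Q)⁻¹ * T * adm Q) := by
  have h3 : (adm Q)⁻¹ * T * adm Q =
      ((adm Q)⁻¹ * (adm P)⁻¹) * (adm P * T * (adm P)⁻¹) * (adm P * adm Q) := by
    have h4 := Matrix.nonsing_inv_mul _ (adm_unit hP)
    calc (adm Q)⁻¹ * T * adm Q = (adm Q)⁻¹ * ((adm P)⁻¹ * adm P) * T * ((adm P)⁻¹ * adm P) * adm Q := by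
          rw [h4, Matrix.mul_one, Matrix.mul_one]
      _ = _ := by simp only [Matrix.mul_assoc]
  rw [h3]
  exact ((low_adm_inv h1 h2 hP hQ).mul hT).mul (low_adm h1 h2 hP hQ)

theorem low_of_deg {T : Matrix (ι × ι) (ι × ι) ℂ}
    (hT : Low (dd deg) (dd deg) ((adm Q)⁻¹ * T * adm Q)) :
    Low (dd lev) (dd lev) (adm P * T * (adm P)⁻¹) := by
  have h3 : adm P * T * (adm P)⁻¹ =
      (adm P * adm Q) * ((adm Q)⁻¹ * T * adm Q) * ((adm Q)⁻¹ * (adm P)⁻¹) := by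
    have h4 := Matrix.mul_nonsing_inv _ (adm_unit hQ)
    calc adm P * T * (adm P)⁻¹ = adm P * (adm Q * (adm Q)⁻¹) * T * (adm Q * (adm Q)⁻¹) * (adm P)⁻¹ := by
          rw [h4, Matrix.mul_one, Matrix.mul_one]
      _ = _ := by simp only [Matrix.mul_assoc]
  rw [h3]
  exact ((low_adm h1 h2 hP hQ).mul hT).mul (low_adm_inv h1 h2 hP hQ)

end

theorem det_int_unit {γ : Matrix ι ι ℤ} {ψ : Matrix ι ι ℚ}
    (hψ : IsUnit (qc ψ).det) (h : (zc γ)ᵀ * qc ψ * zc γ = qc ψ) : IsUnit γ.det := by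
  have h1 := congrArg Matrix.det h
  rw [Matrix.det_mul, Matrix.det_mul, Matrix.det_transpose] at h1
  have h2 : (zc γ).det * (zc γ).det = 1 := by
    have h3 : (qc ψ).det * ((zc γ).det * (zc γ).det - 1) = 0 := by
      linear_combination h1
    rcases mul_eq_zero.mp h3 with h4 | h4
    · exact absurd h4 hψ.ne_zero
    · exact sub_eq_zero.mp h4
  have h5 : (zc γ).det = ((γ.det : ℤ) : ℂ) := by
    have := RingHom.map_det (Int.castRingHom ℂ) γ
    rw [eq_intCast] at this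
    rw [this]
    rfl
  rw [h5] at h2
  have h6 : γ.det * γ.det = 1 := by exact_mod_cast h2
  exact IsUnit.of_mul_eq_one _ h6

theorem zc_mul {J K L : Type} [Fintype K] (A : Matrix J K ℤ) (B : Matrix K L ℤ) :
    zc (A * B) = zc A * zc B := by
  ext a b; simp [zc, Matrix.mul_apply]

theorem zc_inv {γ : Matrix ι ι ℤ} (h : IsUnit γ.det) : zc γ⁻¹ = (zc γ)⁻¹ := by
  symm
  apply Matrix.inv_eq_left_inv
  rw [← zc_mul, Matrix.nonsing_inv_mul _ h]
  ext a b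
  simp only [zc, Matrix.map_apply, Matrix.one_apply]
  split_ifs <;> simp

theorem zc_adm {γ : Matrix ι ι ℤ} (h : IsUnit γ.det) : zc (adm γ) = adm (zc γ) := by
  rw [adm, adm, ← zc_inv h]
  ext a b
  simp [zc, kroneckerMap_apply]

theorem exists_int {J K : Type} [Fintype J] [Fintype K] (T : Matrix J K ℚ) :
    ∃ (N : ℕ) (T₀ : Matrix J K ℤ), N ≠ 0 ∧ (N : ℂ) • qc T = zc T₀ := by
  classical
  refine ⟨∏ p : J × K, (T p.1 p.2).den,
    Matrix.of fun a b => (T a b).num * ∏ p ∈ Finset.univ.erase (a, b), ((T p.1 p.2).den : ℤ), ?_, ?_⟩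
  · exact Finset.prod_ne_zero_iff.mpr fun p _ => (T p.1 p.2).den_nz
  · ext a b
    change ((∏ p : J × K, (T p.1 p.2).den : ℕ) : ℂ) * ((T a b : ℚ) : ℂ) =
      (((T a b).num * ∏ p ∈ Finset.univ.erase (a, b), ((T p.1 p.2).den : ℤ) : ℤ) : ℂ)
    rw [← Finset.mul_prod_erase _ _ (Finset.mem_univ (a, b))]
    push_cast
    have h1 : ((T a b).den : ℂ) * (T a b : ℂ) = ((T a b).num : ℂ) := by
      have h2 : ((T a b).den : ℚ) * (T a b) = (T a b).num := Rat.den_mul_eq_num _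
      exact_mod_cast congrArg (Rat.cast : ℚ → ℂ) h2
    calc ((T a b).den : ℂ) * (∏ p ∈ Finset.univ.erase (a, b), ((T p.1 p.2).den : ℂ)) * (T a b : ℂ)
        = (((T a b).den : ℂ) * (T a b : ℂ)) *
          ∏ p ∈ Finset.univ.erase (a, b), ((T p.1 p.2).den : ℂ) := by ring
      _ = _ := by rw [h1]

variable {m : ℕ}

/-- Tangent vectors of the monodromy group commute with the Hodge operators. -/
theorem comm_of_noRel {U : Set (Fin m → ℂ)} {w : (Fin m → ℂ) → ℂ}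
    {P : (Fin m → ℂ) → Matrix ι ι ℂ} {s : Fin m → ℂ} (hs : s ∈ U) {κ : IntermediateField ℚ Qbar}
    (h : ¬ HasRelationM U w P s κ (2 * Fintype.card ι + 2)) (hdet : IsUnit (P s).det)
    {lev : ι → ℤ} {j : ℤ} {ψ : Matrix ι ι ℚ} {Q : Matrix ι ι ℂ} {deg : ι → ℤ}
    (F : PolFrame j (qc ψ) Q deg) (h1 : Low lev deg (P s * Q)) (h2 : Low deg lev (P s * Q)⁻¹)
    {X : Matrix ι ι ℂ} (hX : X ∈ tangent (Mono ψ U w P)) : CommHodge Q deg X := by
  have hQ := F.unit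
  have hψ := F.unitΨ
  intro T hT
  obtain ⟨N, T₀, hN, hT₀⟩ := exists_int T
  have hN' : (N : ℂ) ≠ 0 := by exact_mod_cast hN
  have hTT : qc T = (N : ℂ)⁻¹ • zc T₀ := by rw [← hT₀, smul_smul, inv_mul_cancel₀ hN', one_smul]
  have hT₀h : Homo (dd deg) (dd deg) ((adm Q)⁻¹ * zc T₀ * adm Q) := by
    intro p q hpq
    rw [← hT₀, Matrix.mul_smul, Matrix.smul_mul, Matrix.smul_apply, hT p q hpq, smul_zero]
  -- the orbit of `T₀`
  set Ψ : Matrix (ι × ι) (ι × ι) ℂ := qc ψ ⊗ₖ ((qc ψ)⁻¹)ᵀ with hΨ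
  have FE : PolFrame 0 Ψ (adm Q) (dd deg) := F.ends
  set c := (zc T₀ * ((Ψᵀ)⁻¹ * (zc T₀)ᵀ * Ψᵀ)).trace with hc
  have hfin := FE.finite c
  have hfin' := hfin.image (fun T : Matrix (ι × ι) (ι × ι) ℤ => zc T)
  have horb : ∀ g ∈ Mono ψ U w P, adm g * zc T₀ * adm g⁻¹ ∈
      (fun T : Matrix (ι × ι) (ι × ι) ℤ => zc T) '' {T : Matrix (ι × ι) (ι × ι) ℤ |
        Homo (dd deg) (dd deg) ((adm Q)⁻¹ * zc T * adm Q) ∧
          (zc T * ((Ψᵀ)⁻¹ * (zc T)ᵀ * Ψᵀ)).trace = c} := by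
    intro g hg
    have hB := mem_BFibre hg hψ hs hdet
    obtain ⟨⟨γ, hγ0⟩, hiso, -⟩ := hg
    have hγ : zc γ = g := hγ0.symm
    have hγu : IsUnit γ.det := det_int_unit (ψ := ψ) hψ (by rw [hγ]; exact hiso)
    have hgu : IsUnit g.det := by
      have h3 := congrArg Matrix.det hiso
      rw [Matrix.det_mul] at h3
      exact isUnit_of_mul_isUnit_right (h3 ▸ hψ)
    have e1 : zc (adm γ * T₀ * adm γ⁻¹) = adm g * zc T₀ * adm g⁻¹ := by
      have h4 : IsUnit (γ⁻¹).det := Matrix.isUnit_nonsing_inv_det _ hγu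
      rw [zc_mul, zc_mul, zc_adm hγu, zc_adm h4, zc_inv hγu, hγ]
    refine ⟨adm γ * T₀ * adm γ⁻¹, ⟨?_, ?_⟩, e1⟩
    · refine FE.homo_of_low (cj_zc _) ?_
      refine low_to_deg h1 h2 hdet hQ ?_
      -- the relations
      have h5 : Low (dd lev) (dd lev) (adm (P s) * qc T * (adm (P s))⁻¹) :=
        low_of_deg h1 h2 hdet hQ hT.low
      have h6 := low_of_noRel h hdet h5 hB
      rw [e1]
      have h7 : adm (P s) * (adm g * zc T₀ * adm g⁻¹) * (adm (P s))⁻¹ =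
          (N : ℂ) • (adm (P s * g) * qc T * (adm (P s * g))⁻¹) := by
        rw [adm_mul, Matrix.mul_inv_rev, adm_inv hgu, ← hT₀]
        simp only [Matrix.mul_smul, Matrix.smul_mul, Matrix.mul_assoc]
      rw [h7]
      intro p q hpq
      rw [Matrix.smul_apply, h6 p q hpq, smul_zero]
    · rw [e1, hc]
      refine trace_adj FE.unitΨ (adm_mul_inv hgu) ?_
      have h8 : ((g⁻¹)ᵀ)ᵀ * ((qc ψ)⁻¹)ᵀ * (g⁻¹)ᵀ = ((qc ψ)⁻¹)ᵀ := by
        rw [← Matrix.transpose_mul, ← Matrix.transpose_mul]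
        congr 1
        have h9 := congrArg Inv.inv hiso
        change (gᵀ * qc ψ * g)⁻¹ = (qc ψ)⁻¹ at h9
        rw [Matrix.mul_inv_rev, Matrix.mul_inv_rev, ← Matrix.transpose_nonsing_inv] at h9
        exact h9
      rw [adm, hΨ, ← kroneckerMap_transpose, ← mul_kronecker_mul, ← mul_kronecker_mul, h8]
      rw [show gᵀ * qc ψ * g = qc ψ from hiso]
  have hfinal := tangent_orbit hX hψ (fun g hg => hg.2.1) hfin' horb
  rw [hTT, Matrix.mul_smul, Matrix.smul_mul, hfinal]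

/-- The Mumford-Tate group contains the connected monodromy group at points without relations of degree at most
`2 n + 2`. -/
theorem mtContains_of_noRel {U : Set (Fin m → ℂ)} {w : (Fin m → ℂ) → ℂ}
    {P : (Fin m → ℂ) → Matrix ι ι ℂ} {s : Fin m → ℂ} (hs : s ∈ U) {κ : IntermediateField ℚ Qbar}
    (h : ¬ HasRelationM U w P s κ (2 * Fintype.card ι + 2)) (hdet : IsUnit (P s).det)
    {lev : ι → ℤ} {j : ℤ} {ψ : Matrix ι ι ℚ} (hpol : IsPolarized lev j ψ (P s)) :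
    MTContains lev j (P s) (tangent (Mono ψ U w P)) := by
  obtain ⟨Q, deg, hQ, hQd⟩ := exists_basis hpol.span
  have F := polFrame hpol hQ hQd
  have h1 := low_PQ hQd
  have h2 := low_PQ_inv hpol hQ hQd hdet
  intro g hg hD X hX Y hY
  refine lie_arg F hg (hD _ ?_) (comm_of_noRel hs h hdet F h1 h2 hX)
    (comm_of_noRel hs h hdet F h1 h2 hY)
  -- `hop` is the Hodge operator
  intro p v hv
  have h3 : v = Q *ᵥ (Q⁻¹ *ᵥ v) := by
    rw [Matrix.mulVec_mulVec, Matrix.mul_nonsing_inv _ hQ, Matrix.one_mulVec]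
  have h4 : diagonal (fun i => ((2 * deg i - j : ℤ) : ℂ)) *ᵥ (Q⁻¹ *ᵥ v) =
      ((2 * p - j : ℤ) : ℂ) • (Q⁻¹ *ᵥ v) := by
    funext i
    rw [Matrix.mulVec_diagonal, Pi.smul_apply, smul_eq_mul]
    by_cases h5 : deg i = p
    · rw [h5]
    · rw [coord_eq_zero hpol hQ hQd hv i h5, mul_zero, mul_zero]
  rw [hop, ← Matrix.mulVec_mulVec, ← Matrix.mulVec_mulVec, h4, Matrix.mulVec_smul, ← h3]

end Pool.Agent.Helper79.HH
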