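import Pool.Agent.Helper79.HH.FinOrb

/-!
# HH: the basis of the endomorphisms adapted to the Hodge structure
-/

namespace Pool.Agent.Helper79.HH

open Matrix
open scoped Kronecker ComplexOrder

variable {J : Type} [Fintype J] [DecidableEq J]

/-- The matrix of `X ↦ g X g⁻¹`. -/
noncomputable def adm {R : Type} [CommRing R] (g : Matrix J J R) : Matrix (J × J) (J × J) R := g ⊗ₖ (g⁻¹)ᵀ

theorem adm_mul {R : Type} [CommRing R] (g h : Matrix J J R) : adm (g * h) = adm g * adm h := by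
  rw [adm, adm, adm, ← mul_kronecker_mul, Matrix.mul_inv_rev, Matrix.transpose_mul]

theorem adm_one {R : Type} [CommRing R] : adm (1 : Matrix J J R) = 1 := by
  have h1 : (1 : Matrix J J R)⁻¹ = 1 := Matrix.inv_eq_left_inv (by rw [Matrix.one_mul])
  rw [adm, h1, Matrix.transpose_one, one_kronecker_one]

theorem adm_inv_mul {R : Type} [CommRing R] {g : Matrix J J R} (h : IsUnit g.det) :
    adm g⁻¹ * adm g = 1 := by
  rw [← adm_mul, Matrix.nonsing_inv_mul _ h, adm_one]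

theorem adm_mul_inv {R : Type} [CommRing R] {g : Matrix J J R} (h : IsUnit g.det) :
    adm g * adm g⁻¹ = 1 := by
  rw [← adm_mul, Matrix.mul_nonsing_inv _ h, adm_one]

theorem adm_inv {R : Type} [CommRing R] {g : Matrix J J R} (h : IsUnit g.det) :
    (adm g)⁻¹ = adm g⁻¹ := Matrix.inv_eq_left_inv (adm_inv_mul h)

theorem adm_unit {R : Type} [CommRing R] {g : Matrix J J R} (h : IsUnit g.det) :
    IsUnit (adm g).det := by
  rw [← Matrix.isUnit_iff_isUnit_det]
  exact IsUnit.of_mul_eq_one _ (adm_mul_inv h)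

theorem transpose_inv {R : Type} [CommRing R] (g : Matrix J J R) : (g⁻¹)ᵀ = (gᵀ)⁻¹ :=
  Matrix.transpose_nonsing_inv g

/-- The inverse of a homogeneous matrix. -/
theorem Homo.inv {deg : J → ℤ} {G : Matrix J J ℂ} (hG : IsUnit G.det) (h : Homo deg deg G) :
    Homo deg deg G⁻¹ := by
  set d : Matrix J J ℂ := diagonal (fun i => ((deg i : ℤ) : ℂ)) with hd
  have h1 : G * d = d * G := by
    ext i k
    rw [hd, Matrix.mul_diagonal, Matrix.diagonal_mul]
    by_cases h2 : deg i = deg k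
    · rw [h2, mul_comm]
    · rw [h i k h2, zero_mul, mul_zero]
  have h3 : d * G⁻¹ = G⁻¹ * d := by
    calc d * G⁻¹ = (G⁻¹ * G) * (d * G⁻¹) := by rw [Matrix.nonsing_inv_mul _ hG, Matrix.one_mul]
      _ = G⁻¹ * (G * d) * G⁻¹ := by simp only [Matrix.mul_assoc]
      _ = G⁻¹ * d * (G * G⁻¹) := by rw [h1]; simp only [Matrix.mul_assoc]
      _ = _ := by rw [Matrix.mul_nonsing_inv _ hG, Matrix.mul_one]
  intro i k hik
  have h4 := congrFun (congrFun h3 i) k
  rw [hd, Matrix.mul_diagonal, Matrix.diagonal_mul] at h4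
  have h5 : G⁻¹ i k * (((deg k : ℤ) : ℂ) - ((deg i : ℤ) : ℂ)) = 0 := by
    rw [mul_sub, ← h4]; ring
  rcases mul_eq_zero.mp h5 with h6 | h6
  · exact h6
  · have h7 : ((deg k : ℤ) : ℂ) = ((deg i : ℤ) : ℂ) := sub_eq_zero.mp h6
    exact absurd (by exact_mod_cast h7 : deg k = deg i) (Ne.symm hik)

theorem PolFrame.ends {w : ℤ} {Ψ Q : Matrix J J ℂ} {deg : J → ℤ} (F : PolFrame w Ψ Q deg) :
    PolFrame 0 (Ψ ⊗ₖ (Ψ⁻¹)ᵀ) (adm Q) (dd deg) := by
  have hQ := F.unit
  have hQ' := cj_det Q hQ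
  have hΨ := F.unitΨ
  set G := Qᵀ * Ψ * cj Q with hG
  have hGu : IsUnit G.det := by
    rw [hG, Matrix.det_mul, Matrix.det_mul, Matrix.det_transpose]
    exact (hQ.mul hΨ).mul hQ'
  have hGi : (G⁻¹)ᵀ = Q⁻¹ * (Ψ⁻¹)ᵀ * (cj Q⁻¹)ᵀ := by
    rw [hG, Matrix.mul_inv_rev, Matrix.mul_inv_rev, Matrix.transpose_mul, Matrix.transpose_mul,
      ← transpose_inv Q, Matrix.transpose_transpose, cj_inv _ hQ]
  have hcjE : cj (adm Q) = cj Q ⊗ₖ (cj Q⁻¹)ᵀ := by
    rw [adm, cj, kroneckerMap_map]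
    ext ⟨a, b⟩ ⟨c, d⟩
    simp [kroneckerMap_apply, cj]
  have hGE : (adm Q)ᵀ * (Ψ ⊗ₖ (Ψ⁻¹)ᵀ) * cj (adm Q) = G ⊗ₖ (G⁻¹)ᵀ := by
    rw [hcjE, adm, ← kroneckerMap_transpose, ← mul_kronecker_mul, ← mul_kronecker_mul,
      Matrix.transpose_transpose, hGi]
  refine ⟨adm_unit hQ, ?_, ?_, ?_⟩
  · rw [adm_inv hQ, hcjE, adm, ← mul_kronecker_mul]
    have h1 : ((Q⁻¹)⁻¹)ᵀ * (cj Q⁻¹)ᵀ = ((cj Q)⁻¹ * Q)ᵀ := by
      rw [Matrix.nonsing_inv_nonsing_inv _ hQ, Matrix.transpose_mul, cj_inv _ hQ]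
    rw [h1]
    have h2 : Homo (fun k => w - deg k) deg ((cj Q)⁻¹ * Q) :=
      F.conj_inv.congr fun x i (h : w - deg x ≠ deg i) => (show deg x ≠ w - deg i by omega)
    refine (F.conj.kron h2).congr ?_
    rintro ⟨a, b⟩ ⟨c, d⟩ h
    simp only [dd] at h ⊢
    omega
  · rw [hGE]
    exact F.orth.kron (F.orth.inv hGu)
  · rw [hGE]
    have h1 : (diagonal fun i : J × J => Complex.I ^ (2 * dd deg i - 0)) =
        (diagonal fun i => Complex.I ^ (2 * deg i - w)) ⊗ₖ
          (diagonal fun i => Complex.I ^ (w - 2 * deg i)) := by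
      rw [diagonal_kronecker_diagonal]
      congr 1
      funext i
      rw [← zpow_add₀ Complex.I_ne_zero]
      congr 1
      simp only [dd]
      ring
    have h2 : ((diagonal fun i => Complex.I ^ (w - 2 * deg i)) * (G⁻¹)ᵀ)ᵀ =
        ((((diagonal fun i => Complex.I ^ (2 * deg i - w)) * G)ᵀ)ᵀ)⁻¹ := by
      have h3 : (diagonal fun i => Complex.I ^ (2 * deg i - w) : Matrix J J ℂ)⁻¹ =
          diagonal fun i => Complex.I ^ (w - 2 * deg i) := by
        apply Matrix.inv_eq_left_inv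
        rw [diagonal_mul_diagonal, ← diagonal_one]
        congr 1
        funext i
        rw [← zpow_add₀ Complex.I_ne_zero]
        rw [show w - 2 * deg i + (2 * deg i - w) = 0 by ring, zpow_zero]
      rw [Matrix.transpose_transpose, Matrix.transpose_mul, Matrix.diagonal_transpose,
        Matrix.transpose_transpose, Matrix.mul_inv_rev (diagonal _) G, h3]
    rw [h1, ← mul_kronecker_mul, ← kroneckerMap_transpose, h2]
    exact F.pos.kronecker F.pos.transpose.inv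

end Pool.Agent.Helper79.HH
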