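import Pool.Agent.Helper79.HH.Stat
import Pool.Agent.Helper79.HH.EFrame

/-!
# HH: existence of adapted bases
-/

namespace Pool.Agent.Helper79.HH

open Matrix
open scoped Kronecker ComplexOrder

variable {ι : Type} [Fintype ι] [DecidableEq ι] {lev : ι → ℤ} {j : ℤ} {P : Matrix ι ι ℂ}

/-- Rational matrices as complex matrices. -/
noncomputable abbrev qc {K L : Type} (T : Matrix K L ℚ) : Matrix K L ℂ := T.map (Rat.cast : ℚ → ℂ)

omit [DecidableEq ι] in
theorem star_mem {p : ℤ} {v : ι → ℂ} (h : v ∈ hodgePart lev j P p) :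
    star v ∈ hodgePart lev j P (j - p) := by
  intro x
  refine ⟨fun h1 => (h x).2 h1, fun h1 => ?_⟩
  rw [star_star]
  exact (h x).1 (by omega)

theorem exists_basis (h : ⨆ p, hodgePart lev j P p = ⊤) :
    ∃ (Q : Matrix ι ι ℂ) (deg : ι → ℤ), IsUnit Q.det ∧
      ∀ i, (fun x => Q x i) ∈ hodgePart lev j P (deg i) := by
  have hs : ⊤ ≤ Submodule.span ℂ (⋃ p, (hodgePart lev j P p : Set (ι → ℂ))) := by
    rw [← h, Submodule.span_iUnion]
    exact iSup_mono fun p => (Submodule.span_eq _).ge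
  set b := Module.Basis.ofSpan hs with hb
  set e := (Pi.basisFun ℂ ι).indexEquiv b with he
  have hb : ∀ i, ∃ p, b (e i) ∈ hodgePart lev j P p := fun i => by
    have := Module.Basis.ofSpan_subset hs ⟨e i, rfl⟩
    exact Set.mem_iUnion.mp this
  choose deg hdeg using hb
  refine ⟨Matrix.of fun x i => b (e i) x, deg, ?_, hdeg⟩
  have h1 := (Pi.basisFun ℂ ι).isUnit_det (b.reindex e.symm)
  rw [Module.Basis.det_apply] at h1
  have h2 : (Pi.basisFun ℂ ι).toMatrix (b.reindex e.symm) = Matrix.of fun x i => b (e i) x := by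
    ext x i
    rw [Module.Basis.toMatrix_apply, Pi.basisFun_repr, Module.Basis.reindex_apply, Equiv.symm_symm,
      Matrix.of_apply]
  rwa [h2] at h1

omit [DecidableEq ι] in
theorem mulVec_mem {Q : Matrix ι ι ℂ} {deg : ι → ℤ}
    (hQ : ∀ i, (fun x => Q x i) ∈ hodgePart lev j P (deg i)) {q : ℤ} {c : ι → ℂ}
    (hc : ∀ i, deg i ≠ q → c i = 0) : Q *ᵥ c ∈ hodgePart lev j P q := by
  have h1 : Q *ᵥ c = ∑ i, c i • (fun x => Q x i) := by
    funext x
    rw [Matrix.mulVec, dotProduct, Finset.sum_apply]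
    exact Finset.sum_congr rfl fun i _ => by rw [Pi.smul_apply, smul_eq_mul, mul_comm]
  rw [h1]
  refine Submodule.sum_mem _ fun i _ => ?_
  by_cases h2 : deg i = q
  · exact Submodule.smul_mem _ _ (h2 ▸ hQ i)
  · rw [hc i h2, zero_smul]
    exact Submodule.zero_mem _

omit [DecidableEq ι] in
theorem form_eq (ψ : Matrix ι ι ℚ) (Q : Matrix ι ι ℂ) (c d : ι → ℂ) :
    form ψ (Q *ᵥ c) (star (Q *ᵥ d)) = c ⬝ᵥ ((Qᵀ * qc ψ * cj Q) *ᵥ star d) := by
  have h1 : star (Q *ᵥ d) = cj Q *ᵥ star d := by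
    funext x
    simp [Matrix.mulVec, dotProduct, cj]
  rw [form, h1, ← Matrix.mulVec_mulVec (M := Qᵀ * qc ψ), ← Matrix.mulVec_mulVec (M := Qᵀ),
    Matrix.dotProduct_mulVec c, Matrix.vecMul_transpose]

/-- Restriction of coordinates to a degree. -/
def rs (deg : ι → ℤ) (q : ℤ) (c : ι → ℂ) : ι → ℂ := fun i => if deg i = q then c i else 0

omit [Fintype ι] [DecidableEq ι] in
theorem rs_ne {deg : ι → ℤ} {q : ℤ} (c : ι → ℂ) (i : ι) (h : deg i ≠ q) : rs deg q c i = 0 := by
  rw [rs, if_neg h]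

omit [DecidableEq ι] in
theorem rs_dot {deg : ι → ℤ} {G : Matrix ι ι ℂ} (hG : Homo deg deg G) (q : ℤ) (c : ι → ℂ) :
    rs deg q c ⬝ᵥ (G *ᵥ star c) = rs deg q c ⬝ᵥ (G *ᵥ star (rs deg q c)) := by
  simp only [dotProduct, Matrix.mulVec]
  refine Finset.sum_congr rfl fun i _ => ?_
  by_cases h1 : deg i = q
  · congr 1
    refine Finset.sum_congr rfl fun k _ => ?_
    by_cases h2 : deg k = q
    · simp [rs, h2]
    · rw [hG i k (by rw [h1]; exact Ne.symm h2), zero_mul, zero_mul]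
  · rw [rs_ne c i h1, zero_mul, zero_mul]

section

variable {ψ : Matrix ι ι ℚ} (hpol : IsPolarized lev j ψ P) {Q : Matrix ι ι ℂ} {deg : ι → ℤ}
  (hQu : IsUnit Q.det) (hQ : ∀ i, (fun x => Q x i) ∈ hodgePart lev j P (deg i))
include hpol hQ

omit [DecidableEq ι] in
theorem homo_gram : Homo deg deg (Qᵀ * qc ψ * cj Q) := by
  classical
  intro i k hik
  have h1 := hpol.orth (deg i) (deg k) hik _ (hQ i) _ (hQ k)
  have e1 : ∀ i, (fun x => Q x i) = Q *ᵥ (Pi.single i 1) := fun i => by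
    funext x
    rw [Matrix.mulVec_single_one]
    rfl
  rw [e1 i, e1 k, form_eq] at h1
  have h2 : star (Pi.single k 1 : ι → ℂ) = Pi.single k 1 := by
    rw [← Pi.single_star, star_one]
  rw [h2, Matrix.mulVec_single_one, single_one_dotProduct] at h1
  exact h1

include hQu

theorem eq_zero_of_form {q : ℤ} {c : ι → ℂ} (hc : ∀ i, deg i ≠ q → c i = 0)
    (h : c ⬝ᵥ ((Qᵀ * qc ψ * cj Q) *ᵥ star c) = 0) : c = 0 := by
  by_contra hne
  have h1 : Q *ᵥ c ≠ 0 := by
    intro h2
    apply hne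
    calc c = (Q⁻¹ * Q) *ᵥ c := by rw [Matrix.nonsing_inv_mul _ hQu, Matrix.one_mulVec]
      _ = 0 := by rw [← Matrix.mulVec_mulVec, h2, Matrix.mulVec_zero]
  obtain ⟨r, hr, h3⟩ := hpol.pos q _ (mulVec_mem hQ hc) h1
  rw [form_eq, h, mul_zero] at h3
  have : (r : ℂ) ≠ 0 := by exact_mod_cast ne_of_gt hr
  exact this h3.symm

/-- The coordinates of a vector of type `p`. -/
theorem coord_eq_zero {p : ℤ} {u : ι → ℂ} (hu : u ∈ hodgePart lev j P p) (i : ι) (hi : deg i ≠ p) :
    (Q⁻¹ *ᵥ u) i = 0 := by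
  set c := Q⁻¹ *ᵥ u with hc
  have huc : u = Q *ᵥ c := by
    rw [hc, Matrix.mulVec_mulVec, Matrix.mul_nonsing_inv _ hQu, Matrix.one_mulVec]
  have h1 := hpol.orth (deg i) p hi _
    (mulVec_mem hQ (c := rs deg (deg i) c) (fun k hk => rs_ne c k hk)) u hu
  rw [huc, form_eq, rs_dot (homo_gram hpol hQ)] at h1
  have h2 := eq_zero_of_form hpol hQu hQ (q := deg i) (c := rs deg (deg i) c)
    (fun k hk => rs_ne c k hk) h1
  have h3 := congrFun h2 i
  rw [rs, if_pos rfl] at h3
  exact h3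

/-- Vectors on which the forms of level greater than `p` vanish are sums of vectors of type at most `p`. -/
theorem coord_of_filtration {p : ℤ} {v : ι → ℂ} (hv : ∀ x, p < lev x → (P *ᵥ v) x = 0) (i : ι)
    (hi : p < deg i) : (Q⁻¹ *ᵥ v) i = 0 := by
  by_contra hne
  set c := Q⁻¹ *ᵥ v with hc
  have hvc : v = Q *ᵥ c := by
    rw [hc, Matrix.mulVec_mulVec, Matrix.mul_nonsing_inv _ hQu, Matrix.one_mulVec]
  obtain ⟨i0, h0, hmax⟩ := (Finset.univ.filter fun k => p < deg k ∧ c k ≠ 0).exists_max_image deg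
    ⟨i, by simp [hi, hne]⟩
  rw [Finset.mem_filter] at h0
  obtain ⟨-, hi0, hc0⟩ := h0
  set q0 := deg i0 with hq0
  have hmem0 : Q *ᵥ rs deg q0 c ∈ hodgePart lev j P q0 :=
    mulVec_mem hQ fun k hk => rs_ne c k hk
  have hmem1 : Q *ᵥ rs deg q0 c ∈ hodgePart lev j P (q0 - 1) := by
    intro x
    refine ⟨fun hx => ?_, fun hx => (hmem0 x).2 (by omega)⟩
    have h1 : rs deg q0 c = c - fun k => if deg k = q0 then 0 else c k := by
      funext k
      rw [rs, Pi.sub_apply]
      split_ifs <;> simp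
    rw [h1, Matrix.mulVec_sub, Matrix.mulVec_sub, Pi.sub_apply, ← hvc, hv x (by omega), zero_sub,
      neg_eq_zero]
    have h2 : (fun k => if deg k = q0 then 0 else c k) = ∑ q ∈ Finset.univ.image deg, if q < q0 then
        rs deg q c else 0 := by
      funext k
      rw [Finset.sum_apply]
      have h3 : ∀ q ∈ Finset.univ.image deg, (if q < q0 then rs deg q c else 0) k =
          if q = deg k then (if deg k < q0 then c k else 0) else 0 := by
        intro q _
        by_cases h4 : q = deg k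
        · rw [if_pos h4, h4]
          split_ifs with h5
          · rw [rs, if_pos rfl]
          · rfl
        · rw [if_neg h4]
          split_ifs
          · exact rs_ne c k (Ne.symm h4)
          · rfl
      have hk : deg k ∈ Finset.univ.image deg := Finset.mem_image_of_mem _ (Finset.mem_univ _)
      rw [Finset.sum_congr rfl h3, Finset.sum_ite_eq', if_pos hk]
      by_cases h5 : deg k = q0
      · rw [if_pos h5, if_neg (by omega)]
      · rw [if_neg h5]
        by_cases h6 : deg k < q0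
        · rw [if_pos h6]
        · rw [if_neg h6]
          by_contra h7
          have := hmax k (by
            rw [Finset.mem_filter]
            exact ⟨Finset.mem_univ _, by omega, h7⟩)
          omega
    rw [h2, Matrix.mulVec_sum, Matrix.mulVec_sum, Finset.sum_apply]
    refine Finset.sum_eq_zero fun q _ => ?_
    split_ifs with h5
    · exact ((mulVec_mem (P := P) (lev := lev) (j := j) hQ
        (c := rs deg q c) (fun k hk => rs_ne c k hk)) x).1 (by omega)
    · rw [Matrix.mulVec_zero, Matrix.mulVec_zero, Pi.zero_apply]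
  have h4 := hpol.orth q0 (q0 - 1) (by omega) _ hmem0 _ hmem1
  rw [form_eq] at h4
  have h5 := eq_zero_of_form hpol hQu hQ (q := q0) (c := rs deg q0 c)
    (fun k hk => rs_ne c k hk) h4
  have h6 := congrFun h5 i0
  rw [rs, if_pos rfl] at h6
  exact hc0 h6

theorem frame_pos :
    ((diagonal fun i => Complex.I ^ (2 * deg i - j)) * (Qᵀ * qc ψ * cj Q))ᵀ.PosDef := by
  set G := Qᵀ * qc ψ * cj Q with hG
  set N := ((diagonal fun i => Complex.I ^ (2 * deg i - j)) * G)ᵀ with hN
  have hGh : Homo deg deg G := homo_gram hpol hQ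
  have key : ∀ x : ι → ℂ, ∃ r : ℝ, star x ⬝ᵥ (N *ᵥ x) = r ∧ 0 ≤ r ∧ (x ≠ 0 → 0 < r) := by
    intro x
    have h1 : star x ⬝ᵥ (N *ᵥ x) = ∑ q ∈ Finset.univ.image deg,
        Complex.I ^ (2 * q - j) * (rs deg q x ⬝ᵥ (G *ᵥ star (rs deg q x))) := by
      have h2 : star x ⬝ᵥ (N *ᵥ x) =
          ∑ k, Complex.I ^ (2 * deg k - j) * (x k * (G *ᵥ star x) k) := by
        rw [Matrix.dotProduct_mulVec, ← Matrix.mulVec_transpose, hN, Matrix.transpose_transpose,
          ← Matrix.mulVec_mulVec]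
        simp only [dotProduct, Matrix.mulVec_diagonal]
        exact Finset.sum_congr rfl fun k _ => by ring
      rw [h2]
      have h3 : ∀ q ∈ Finset.univ.image deg,
          Complex.I ^ (2 * q - j) * (rs deg q x ⬝ᵥ (G *ᵥ star (rs deg q x))) =
          ∑ k, if deg k = q then Complex.I ^ (2 * deg k - j) * (x k * (G *ᵥ star x) k) else 0 := by
        intro q _
        rw [← rs_dot hGh, dotProduct, Finset.mul_sum]
        refine Finset.sum_congr rfl fun k _ => ?_
        split_ifs with h4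
        · rw [rs, if_pos h4, h4]
        · rw [rs_ne x k h4]; ring
      rw [Finset.sum_congr rfl h3, Finset.sum_comm]
      refine Finset.sum_congr rfl fun k _ => ?_
      rw [Finset.sum_ite_eq, if_pos (by simp)]
    have h5 : ∀ q, ∃ r : ℝ, Complex.I ^ (2 * q - j) * (rs deg q x ⬝ᵥ (G *ᵥ star (rs deg q x))) = r ∧
        0 ≤ r ∧ (rs deg q x ≠ 0 → 0 < r) := by
      intro q
      by_cases h6 : rs deg q x = 0
      · exact ⟨0, by rw [h6]; simp, le_refl _, fun h => absurd h6 h⟩
      · have h7 : Q *ᵥ rs deg q x ≠ 0 := by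
          intro h8
          apply h6
          calc rs deg q x = (Q⁻¹ * Q) *ᵥ rs deg q x := by
                rw [Matrix.nonsing_inv_mul _ hQu, Matrix.one_mulVec]
            _ = 0 := by rw [← Matrix.mulVec_mulVec, h8, Matrix.mulVec_zero]
        obtain ⟨r, hr, h9⟩ := hpol.pos q _
          (mulVec_mem hQ (c := rs deg q x) (fun k hk => rs_ne x k hk)) h7
        rw [form_eq] at h9
        exact ⟨r, h9, hr.le, fun _ => hr⟩
    choose r hr hr0 hr1 using h5
    refine ⟨∑ q ∈ Finset.univ.image deg, r q, ?_, Finset.sum_nonneg fun q _ => hr0 q, ?_⟩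
    · rw [h1, Finset.sum_congr rfl fun q _ => hr q]
      push_cast
      rfl
    · intro hx
      obtain ⟨i, hi⟩ := Function.ne_iff.mp hx
      refine Finset.sum_pos' (fun q _ => hr0 q) ⟨deg i, by simp, hr1 _ ?_⟩
      intro h
      apply hi
      have := congrFun h i
      rwa [rs, if_pos rfl] at this
  have hherm : N.IsHermitian := by
    rw [← Matrix.isSymmetric_toEuclideanLin_iff, LinearMap.isSymmetric_iff_inner_map_self_real]
    intro v
    obtain ⟨r, hr, -, -⟩ := key v.ofLp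
    have h1 : inner ℂ (Matrix.toEuclideanLin N v) v = (r : ℂ) := by
      rw [← inner_conj_symm, Matrix.toLpLin_apply]
      rw [EuclideanSpace.inner_eq_star_dotProduct]
      have h2 : (N *ᵥ v.ofLp) ⬝ᵥ star v.ofLp = (r : ℂ) := by rw [dotProduct_comm]; exact hr
      rw [h2, Complex.conj_ofReal]
    rw [h1, Complex.conj_ofReal]
  refine Matrix.PosDef.of_dotProduct_mulVec_pos hherm fun x hx => ?_
  obtain ⟨r, hr, -, h1⟩ := key x
  rw [hr]
  exact_mod_cast h1 hx

theorem polFrame : PolFrame j (qc ψ) Q deg := by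
  refine ⟨hQu, ?_, homo_gram hpol hQ, frame_pos hpol hQu hQ⟩
  intro i k hik
  have h1 : (Q⁻¹ * cj Q) i k = (Q⁻¹ *ᵥ star (fun x => Q x k)) i := by
    rw [Matrix.mul_apply, Matrix.mulVec, dotProduct]
    rfl
  rw [h1]
  exact coord_eq_zero hpol hQu hQ (star_mem (hQ k)) i hik

omit hQu hpol [DecidableEq ι] in
theorem low_PQ : Low lev deg (P * Q) := by
  intro x i h
  have h1 : (P * Q) x i = (P *ᵥ fun x => Q x i) x := by
    rw [Matrix.mul_apply, Matrix.mulVec, dotProduct]
  rw [h1]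
  exact (hQ i x).1 h

theorem low_PQ_inv (hP : IsUnit P.det) : Low deg lev (P * Q)⁻¹ := by
  intro i y h
  have h1 : (P * Q)⁻¹ i y = (Q⁻¹ *ᵥ (P⁻¹ *ᵥ Pi.single y 1)) i := by
    rw [Matrix.mul_inv_rev, Matrix.mulVec_mulVec, Matrix.mulVec_single_one]
    rfl
  rw [h1]
  refine coord_of_filtration hpol hQu hQ (p := lev y) (fun x hx => ?_) i h
  rw [Matrix.mulVec_mulVec, Matrix.mul_nonsing_inv _ hP, Matrix.one_mulVec,
    Pi.single_eq_of_ne]
  intro hxy
  rw [hxy] at hx
  exact lt_irrefl _ hx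

end

theorem hodgeOp_eq {D : Matrix ι ι ℂ} (hD : IsHodgeOp lev j P D) {Q : Matrix ι ι ℂ} {deg : ι → ℤ}
    (hQu : IsUnit Q.det) (hQ : ∀ i, (fun x => Q x i) ∈ hodgePart lev j P (deg i)) :
    D = Q * diagonal (fun i => ((2 * deg i - j : ℤ) : ℂ)) * Q⁻¹ := by
  have h1 : D * Q = Q * diagonal (fun i => ((2 * deg i - j : ℤ) : ℂ)) := by
    ext x i
    have h2 := congrFun (hD (deg i) _ (hQ i)) x
    rw [Matrix.mul_diagonal, mul_comm]
    exact h2
  rw [← h1, Matrix.mul_assoc, Matrix.mul_nonsing_inv _ hQu, Matrix.mul_one]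

end Pool.Agent.Helper79.HH
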