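import Pool.Agent.Helper79.HH.StatM

/-!
# HH: analytic continuation of polynomial relations
-/

namespace Pool.Agent.Helper79.HH

open Matrix Pool.Agent.Helper79.BB Pool.Agent.Helper64.Per

variable {m : ℕ} {ι : Type} [Fintype ι] [DecidableEq ι]

theorem analytic_evP (q : MvPolynomial ((Fin m ⊕ Unit) ⊕ ι × ι) Qbar) {a : Element m ι}
    (ha : a.IsAnalytic) : AnalyticOnNhd ℂ (fun t => evP q t (a.w t) (a.P t)) a.U := by
  obtain ⟨-, -, hw, hP⟩ := ha
  induction q using MvPolynomial.induction_on with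
  | C c =>
    have : (fun t => evP (MvPolynomial.C c) t (a.w t) (a.P t)) = fun _ : Fin m → ℂ => (algebraMap Qbar ℂ c) := by
      funext t
      rw [evP, MvPolynomial.aeval_C]
    rw [this]
    exact analyticOnNhd_const
  | add p q hp hq =>
    have : (fun t => evP (p + q) t (a.w t) (a.P t)) =
        fun t => evP p t (a.w t) (a.P t) + evP q t (a.w t) (a.P t) := by
      funext t
      rw [evP, evP, evP, map_add]
    rw [this]
    exact hp.add hq
  | mul_X p i hp =>
    have : (fun t => evP (p * MvPolynomial.X i) t (a.w t) (a.P t)) =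
        fun t => evP p t (a.w t) (a.P t) *
          (Sum.elim (Sum.elim t fun _ => a.w t) fun p => a.P t p.1 p.2) i := by
      funext t
      rw [evP, evP, map_mul, MvPolynomial.aeval_X]
    rw [this]
    refine hp.mul ?_
    rcases i with (i | i) | i
    · intro x _
      exact (ContinuousLinearMap.proj (R := ℂ) (φ := fun _ : Fin m => ℂ) i).analyticAt x
    · exact hw
    · exact hP i.1 i.2

theorem evP_next {a b : Element m ι} (h : a.Next b) (q : MvPolynomial ((Fin m ⊕ Unit) ⊕ ι × ι) Qbar)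
    (hq : ∀ t ∈ a.U, evP q t (a.w t) (a.P t) = 0) : ∀ t ∈ b.U, evP q t (b.w t) (b.P t) = 0 := by
  obtain ⟨ha, hb, O, hO, ⟨x, hx⟩, hOa, hOb, heq⟩ := h
  have h1 := analytic_evP q hb
  have h2 : Set.EqOn (fun t => evP q t (b.w t) (b.P t)) 0 b.U := by
    refine h1.eqOn_zero_of_preconnected_of_eventuallyEq_zero hb.2.1 (hOb hx) ?_
    filter_upwards [hO.mem_nhds hx] with t ht
    obtain ⟨e1, e2⟩ := heq t ht
    change evP q t (b.w t) (b.P t) = 0
    rw [← e1, ← e2]
    exact hq t (hOa ht)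
  exact fun t ht => h2 ht

theorem evP_chain {a b : Element m ι} (h : Relation.ReflTransGen Element.Next a b)
    (q : MvPolynomial ((Fin m ⊕ Unit) ⊕ ι × ι) Qbar)
    (hq : ∀ t ∈ a.U, evP q t (a.w t) (a.P t) = 0) : ∀ t ∈ b.U, evP q t (b.w t) (b.P t) = 0 := by
  induction h with
  | refl => exact hq
  | tail _ h ih => exact evP_next h q ih

theorem mem_BFibre {ψ : Matrix ι ι ℚ} {U : Set (Fin m → ℂ)} {w : (Fin m → ℂ) → ℂ}
    {P : (Fin m → ℂ) → Matrix ι ι ℂ} {g : Matrix ι ι ℂ} (hg : g ∈ Mono ψ U w P)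
    (hψ : IsUnit (ψ.map (Rat.cast : ℚ → ℂ)).det) {s : Fin m → ℂ} (hs : s ∈ U)
    (hdet : IsUnit (P s).det) : P s * g ∈ BFibreM U w P s := by
  obtain ⟨-, h1, h2⟩ := hg
  refine ⟨?_, fun q hq => evP_chain h2 q hq s hs⟩
  rw [Matrix.det_mul]
  refine hdet.mul ?_
  have h3 := congrArg Matrix.det h1
  rw [Matrix.det_mul] at h3
  exact isUnit_of_mul_isUnit_right (h3 ▸ hψ)

end Pool.Agent.Helper79.HH
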