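import Pool.Agent.Helper79.HH.Core
import Pool.Agent.Helper79.HG.MainV

/-!
# HH: for most points of a family the Mumford-Tate group contains the connected monodromy group
-/

namespace Pool.Agent.Helper79.HH

open Matrix Pool.Agent.Helper79.BB Pool.Agent.Helper79.DD Pool.Agent.Helper64.Per Pool.Agent.Helper79.AA

/-- The integer parameters `a` with coordinates of absolute value at most `X` such that for a root `θ` of
`F_a` with `G_0(θ) ≠ 0` the point `t = (G_1(θ) / G_0(θ), …, G_m(θ) / G_0(θ))` is in `V`, and the Lie algebra of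
the Mumford-Tate group at `t` does not contain the derived Lie algebra of the monodromy group. -/
def SmallMT {κ : IntermediateField ℚ Qbar} {J : Type} [Fintype J] (ω : Module.Basis J ℚ κ)
    (N : Finset (ℕ × J)) {m : ℕ} {ι : Type} [Fintype ι] [DecidableEq ι] (U V : Set (Fin m → ℂ))
    (w : (Fin m → ℂ) → ℂ) (P : (Fin m → ℂ) → Matrix ι ι ℂ) (lev : ι → ℤ) (j : ℤ) (ψ : Matrix ι ι ℚ)
    (D e X : ℕ) : Set (DD.Px m D e J N → ℤ) :=
  {a | (∀ p, |a p| ≤ X) ∧ ∃ θ : ℂ, polyU ω N a θ = 0 ∧ denU ω N a θ ≠ 0 ∧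
    pointU ω N a θ ∈ V ∧ ¬ MTContains lev j (P (pointU ω N a θ)) (tangent (Mono ψ U w P))}

theorem small_count {κ : IntermediateField ℚ Qbar} [FiniteDimensional ℚ κ] {m : ℕ} (hm : 1 ≤ m)
    {F : FamiliesM κ m} {μ r : ℕ} {ι : Type} [Fintype ι] [DecidableEq ι] [Nonempty ι]
    (E : F.Sub μ r ι) {U : Set (Fin m → ℂ)} (hU : IsOpen U) (hU' : IsPreconnected U)
    {w : (Fin m → ℂ) → ℂ} (hw : IsBranchM κ U μ w) {P : (Fin m → ℂ) → Matrix ι ι ℂ}
    (hP : E.IsPeriod U w P) {V : Set (Fin m → ℂ)}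
    (hV : HG.DeepW F.T U V ∨ IsCompact V ∧ V ⊆ U) (hdet : ∀ t ∈ V, IsUnit (P t).det)
    {lev : ι → ℤ} {j : ℤ} {ψ : Matrix ι ι ℚ} (hpol : ∀ t ∈ V, IsPolarized lev j ψ (P t))
    {J : Type} [Fintype J] (ω : Module.Basis J ℚ κ)
    {D : ℕ} (hD : 1 ≤ D) (e : ℕ) (N : Finset (ℕ × J)) (hN : ∃ j, (0, j) ∈ N) :
    ∃ C θ₀ : ℝ, 0 < θ₀ ∧ ∀ X : ℕ, 1 ≤ X → ((SmallMT ω N U V w P lev j ψ D e X).ncard : ℝ) ≤
      C * (X : ℝ) ^ ((((D + 1 + m * (e + 1)) * Module.finrank ℚ κ + N.card : ℕ) : ℝ) - θ₀) := by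
  classical
  have hV' : HG.DeepW F.T U V := by
    rcases hV with h | ⟨h1, h2⟩
    · exact h
    · exact HG.deepW_compact F.T hU h1 h2
  have hVU := HG.deepW_sub hV'
  obtain ⟨a, ha⟩ := HG.mainV E hU hw hP hm hU' hV' ω hN hD e
  set δ : ℕ := 2 * Fintype.card ι + 2 with hδ
  refine ⟨Real.exp (((δ : ℝ) + 2) ^ a), 1 / ((δ : ℝ) + 2) ^ a, by positivity, fun X hX => ?_⟩
  refine le_trans ?_ (ha δ X hX)
  have hfin : (HG.RelPointV ω N U V w P δ D e X).Finite :=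
    (box_card X _ fun a ha => ha.1).1
  have hsub : SmallMT ω N U V w P lev j ψ D e X ⊆ HG.RelPointV ω N U V w P δ D e X := by
    rintro b ⟨hb, θ, hθ, hq, hθV, hMT⟩
    refine ⟨hb, θ, hθ, hq, hθV, hdet _ hθV, ?_⟩
    by_contra hrel
    exact hMT (mtContains_of_noRel (hVU hθV) hrel (hdet _ hθV) (hpol _ hθV))
  exact_mod_cast Set.ncard_le_ncard hsub hfin

end Pool.Agent.Helper79.HH
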