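import Pool.Agent.Helper79.HH.PolFrame

/-!
# HH: finiteness of the orbits of integral Hodge endomorphisms
-/

namespace Pool.Agent.Helper79.HH

open Matrix
open scoped Kronecker ComplexOrder

variable {J : Type} [Fintype J] [DecidableEq J]

/-- Integral matrices as complex matrices. -/
noncomputable abbrev zc {K L : Type} (T : Matrix K L ℤ) : Matrix K L ℂ := T.map (Int.cast : ℤ → ℂ)

omit [Fintype J] [DecidableEq J] in
theorem cj_zc {K : Type} (T : Matrix J K ℤ) : cj (zc T) = zc T := by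
  ext i k
  simp [cj, zc]

omit [DecidableEq J] in
theorem finite_bounded (R : ℝ) : {T : Matrix J J ℤ | ∀ i k, |(T i k : ℝ)| ≤ R}.Finite := by
  have h1 : (Set.pi Set.univ fun _ : J => Set.pi Set.univ fun _ : J =>
      Set.Icc (-⌈R⌉) ⌈R⌉ : Set (J → J → ℤ)).Finite :=
    Set.Finite.pi fun _ => Set.Finite.pi fun _ => Set.finite_Icc _ _
  refine h1.subset fun T hT => ?_
  intro i _ k _
  have h2 := hT i k
  rw [abs_le] at h2
  have h3 : R ≤ (⌈R⌉ : ℝ) := Int.le_ceil R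
  constructor
  · have : ((-⌈R⌉ : ℤ) : ℝ) ≤ (T i k : ℝ) := by push_cast; linarith
    exact_mod_cast this
  · have : (T i k : ℝ) ≤ ((⌈R⌉ : ℤ) : ℝ) := by linarith
    exact_mod_cast this

open scoped MatrixOrder in
theorem posDef_factor {M : Matrix J J ℂ} (hM : M.PosDef) : ∃ B : Matrix J J ℂ, IsUnit B.det ∧ M = Bᴴ * B := by
  obtain ⟨B, hB⟩ := CStarAlgebra.nonneg_iff_eq_star_mul_self.mp hM.posSemidef.nonneg
  refine ⟨B, ?_, hB⟩
  have h1 := hM.isUnit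
  rw [hB, Matrix.isUnit_iff_isUnit_det, Matrix.det_mul] at h1
  exact isUnit_of_mul_isUnit_right h1

theorem PolFrame.finite {w : ℤ} {Ψ Q : Matrix J J ℂ} {deg : J → ℤ} (F : PolFrame w Ψ Q deg) (c : ℂ) :
    {T : Matrix J J ℤ | Homo deg deg (Q⁻¹ * zc T * Q) ∧
      (zc T * ((Ψᵀ)⁻¹ * (zc T)ᵀ * Ψᵀ)).trace = c}.Finite := by
  obtain ⟨B, hB, hM⟩ := posDef_factor F.posM
  set n1 : ℝ := ∑ i, ∑ k, ‖B⁻¹ i k‖ with hn1
  set n2 : ℝ := ∑ i, ∑ k, ‖B i k‖ with hn2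
  set s : ℝ := Real.sqrt c.re with hs
  refine (finite_bounded (n1 * s * n2)).subset ?_
  rintro T ⟨hT, hc⟩
  intro i k
  set S := B * zc T * B⁻¹ with hS
  have hBH : IsUnit (Bᴴ).det := by
    rw [Matrix.det_conjTranspose]; exact hB.star
  have h1 : ((S * Sᴴ).trace).re = c.re := by
    rw [← hc, F.adj_eq (cj_zc T) hT, hM]
    congr 1
    have h2 : (Bᴴ * B)⁻¹ = B⁻¹ * (Bᴴ)⁻¹ := Matrix.mul_inv_rev _ _
    have h3 : Sᴴ = (Bᴴ)⁻¹ * (zc T)ᴴ * Bᴴ := by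
      rw [hS, Matrix.conjTranspose_mul, Matrix.conjTranspose_mul, Matrix.conjTranspose_nonsing_inv,
        Matrix.mul_assoc]
    rw [h2, h3, hS]
    calc (B * zc T * B⁻¹ * ((Bᴴ)⁻¹ * (zc T)ᴴ * Bᴴ)).trace
        = (B * (zc T * B⁻¹ * ((Bᴴ)⁻¹ * (zc T)ᴴ * Bᴴ))).trace := by
          simp only [Matrix.mul_assoc]
      _ = ((zc T * B⁻¹ * ((Bᴴ)⁻¹ * (zc T)ᴴ * Bᴴ)) * B).trace := Matrix.trace_mul_comm _ _
      _ = _ := by simp only [Matrix.mul_assoc]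
  have h4 : ∀ a b, ‖S a b‖ ≤ s := by
    intro a b
    have h5 : ((S * Sᴴ).trace).re = ∑ x, ∑ y, ‖S x y‖ ^ 2 := by
      rw [Matrix.trace]
      simp only [Matrix.diag_apply, Matrix.mul_apply, Matrix.conjTranspose_apply, Complex.re_sum]
      refine Finset.sum_congr rfl fun x _ => Finset.sum_congr rfl fun y _ => ?_
      rw [Complex.star_def, Complex.mul_conj, Complex.ofReal_re, Complex.normSq_eq_norm_sq]
    have h6 : ‖S a b‖ ^ 2 ≤ c.re := by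
      rw [← h1, h5]
      calc ‖S a b‖ ^ 2 ≤ ∑ y, ‖S a y‖ ^ 2 :=
            Finset.single_le_sum (f := fun y => ‖S a y‖ ^ 2) (fun y _ => by positivity)
              (Finset.mem_univ b)
        _ ≤ _ := Finset.single_le_sum (f := fun x => ∑ y, ‖S x y‖ ^ 2)
              (fun x _ => by positivity) (Finset.mem_univ a)
    exact Real.le_sqrt_of_sq_le h6
  have h7 : zc T = B⁻¹ * S * B := by
    rw [hS]
    calc zc T = (B⁻¹ * B) * zc T * (B⁻¹ * B) := by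
          rw [Matrix.nonsing_inv_mul _ hB, Matrix.one_mul, Matrix.mul_one]
      _ = _ := by simp only [Matrix.mul_assoc]
  have h8 : |(T i k : ℝ)| = ‖(zc T) i k‖ := by
    simp [zc]
  have hs0 : 0 ≤ s := Real.sqrt_nonneg _
  rw [h8, h7, Matrix.mul_apply]
  calc ‖∑ b, (B⁻¹ * S) i b * B b k‖ ≤ ∑ b, ‖(B⁻¹ * S) i b * B b k‖ := norm_sum_le _ _
    _ ≤ ∑ b, (n1 * s) * ‖B b k‖ := by
        refine Finset.sum_le_sum fun b _ => ?_
        rw [norm_mul]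
        refine mul_le_mul_of_nonneg_right ?_ (norm_nonneg _)
        rw [Matrix.mul_apply]
        calc ‖∑ a, B⁻¹ i a * S a b‖ ≤ ∑ a, ‖B⁻¹ i a * S a b‖ := norm_sum_le _ _
          _ ≤ ∑ a, ‖B⁻¹ i a‖ * s := by
              refine Finset.sum_le_sum fun a _ => ?_
              rw [norm_mul]
              exact mul_le_mul_of_nonneg_left (h4 a b) (norm_nonneg _)
          _ = (∑ a, ‖B⁻¹ i a‖) * s := by rw [Finset.sum_mul]
          _ ≤ n1 * s := by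
              refine mul_le_mul_of_nonneg_right ?_ hs0
              exact Finset.single_le_sum (f := fun x => ∑ y, ‖B⁻¹ x y‖)
                (fun x _ => by positivity) (Finset.mem_univ i)
    _ = (n1 * s) * ∑ b, ‖B b k‖ := by rw [Finset.mul_sum]
    _ ≤ n1 * s * n2 := by
        refine mul_le_mul_of_nonneg_left ?_ (by positivity)
        exact Finset.sum_le_sum fun b _ => Finset.single_le_sum (f := fun y => ‖B b y‖)
          (fun y _ => norm_nonneg _) (Finset.mem_univ k)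

/-- The trace is invariant under isometries. -/
theorem trace_adj {Ψ T σ σ' : Matrix J J ℂ} (hΨ : IsUnit Ψ.det) (h1 : σ * σ' = 1)
    (hσ : σᵀ * Ψ * σ = Ψ) :
    ((σ * T * σ') * ((Ψᵀ)⁻¹ * (σ * T * σ')ᵀ * Ψᵀ)).trace = (T * ((Ψᵀ)⁻¹ * Tᵀ * Ψᵀ)).trace := by
  have hΨT : IsUnit (Ψᵀ).det := by rw [Matrix.det_transpose]; exact hΨ
  have h2 : σ' * σ = 1 := mul_eq_one_comm.mp h1
  have h3 : σᵀ * Ψᵀ * σ = Ψᵀ := by
    have := congrArg Matrix.transpose hσ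
    rw [Matrix.transpose_mul, Matrix.transpose_mul, Matrix.transpose_transpose] at this
    rw [Matrix.mul_assoc]; exact this
  have h4 : σᵀ * Ψᵀ = Ψᵀ * σ' := by
    calc σᵀ * Ψᵀ = (σᵀ * Ψᵀ * σ) * σ' := by
          rw [Matrix.mul_assoc, Matrix.mul_assoc, ← Matrix.mul_assoc σᵀ, h1, Matrix.mul_one]
      _ = _ := by rw [h3]
  have h6 : σ'ᵀ * σᵀ = 1 := by rw [← Matrix.transpose_mul, h1, Matrix.transpose_one]
  have h5 : (Ψᵀ)⁻¹ * σ'ᵀ = σ * (Ψᵀ)⁻¹ := by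
    have h7 : Ψᵀ * σ = σ'ᵀ * Ψᵀ := by
      calc Ψᵀ * σ = (σ'ᵀ * σᵀ) * (Ψᵀ * σ) := by rw [h6, Matrix.one_mul]
        _ = σ'ᵀ * (σᵀ * Ψᵀ * σ) := by simp only [Matrix.mul_assoc]
        _ = _ := by rw [h3]
    calc (Ψᵀ)⁻¹ * σ'ᵀ = (Ψᵀ)⁻¹ * (σ'ᵀ * Ψᵀ) * (Ψᵀ)⁻¹ := by
          rw [Matrix.mul_assoc, Matrix.mul_assoc, Matrix.mul_nonsing_inv _ hΨT, Matrix.mul_one]
      _ = ((Ψᵀ)⁻¹ * Ψᵀ) * σ * (Ψᵀ)⁻¹ := by rw [← h7]; simp only [Matrix.mul_assoc]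
      _ = _ := by rw [Matrix.nonsing_inv_mul _ hΨT, Matrix.one_mul]
  rw [Matrix.transpose_mul, Matrix.transpose_mul]
  calc ((σ * T * σ') * ((Ψᵀ)⁻¹ * (σ'ᵀ * (Tᵀ * σᵀ)) * Ψᵀ)).trace
      = ((σ * T * σ') * (((Ψᵀ)⁻¹ * σ'ᵀ) * Tᵀ * (σᵀ * Ψᵀ))).trace := by
        simp only [Matrix.mul_assoc]
    _ = (σ * (T * ((Ψᵀ)⁻¹ * Tᵀ * Ψᵀ) * σ')).trace := by
        rw [h5, h4]
        congr 1
        calc (σ * T * σ') * ((σ * (Ψᵀ)⁻¹) * Tᵀ * (Ψᵀ * σ'))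
            = σ * T * (σ' * σ) * (Ψᵀ)⁻¹ * Tᵀ * Ψᵀ * σ' := by simp only [Matrix.mul_assoc]
          _ = _ := by rw [h2, Matrix.mul_one]; simp only [Matrix.mul_assoc]
    _ = ((T * ((Ψᵀ)⁻¹ * Tᵀ * Ψᵀ) * σ') * σ).trace := Matrix.trace_mul_comm _ _
    _ = _ := by rw [Matrix.mul_assoc _ σ' σ, h2, Matrix.mul_one]

end Pool.Agent.Helper79.HH
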