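import Pool.Agent.Helper79.HH.Rat

/-!
# HH: the Lie algebra argument
-/

namespace Pool.Agent.Helper79.HH

open Matrix
open scoped Kronecker ComplexOrder

variable {ι : Type} [Fintype ι] [DecidableEq ι]

/-- The Hodge operator in an adapted basis. -/
noncomputable def hop (j : ℤ) (Q : Matrix ι ι ℂ) (deg : ι → ℤ) : Matrix ι ι ℂ :=
  Q * diagonal (fun i => ((2 * deg i - j : ℤ) : ℂ)) * Q⁻¹

section Weil

variable {j : ℤ} {Q : Matrix ι ι ℂ} {deg : ι → ℤ} (hQ : IsUnit Q.det)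
include hQ

theorem coord_hop (X : Matrix ι ι ℂ) (i k : ι) :
    (Q⁻¹ * (hop j Q deg * X - X * hop j Q deg) * Q) i k =
      ((2 * (deg i - deg k) : ℤ) : ℂ) * (Q⁻¹ * X * Q) i k := by
  set d : Matrix ι ι ℂ := diagonal (fun i => ((2 * deg i - j : ℤ) : ℂ)) with hd
  have h1 : Q⁻¹ * (hop j Q deg * X - X * hop j Q deg) * Q =
      d * (Q⁻¹ * X * Q) - (Q⁻¹ * X * Q) * d := by
    rw [hop, ← hd, Matrix.mul_sub, Matrix.sub_mul]
    congr 1
    · calc Q⁻¹ * (Q * d * Q⁻¹ * X) * Q = (Q⁻¹ * Q) * d * (Q⁻¹ * X * Q) := by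
            simp only [Matrix.mul_assoc]
        _ = _ := by rw [Matrix.nonsing_inv_mul _ hQ, Matrix.one_mul]
    · calc Q⁻¹ * (X * (Q * d * Q⁻¹)) * Q = (Q⁻¹ * X * Q) * d * (Q⁻¹ * Q) := by
            simp only [Matrix.mul_assoc]
        _ = _ := by rw [Matrix.nonsing_inv_mul _ hQ, Matrix.mul_one]
  rw [h1, Matrix.sub_apply, hd, Matrix.diagonal_mul, Matrix.mul_diagonal]
  push_cast
  ring

theorem coord_weil (X : Matrix ι ι ℂ) (i k : ι) :
    (Q⁻¹ * (weil j Q deg * X * weilInv j Q deg) * Q) i k =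
      Complex.I ^ (-2 * (deg i - deg k)) * (Q⁻¹ * X * Q) i k := by
  set d : Matrix ι ι ℂ := diagonal (fun i => Complex.I ^ (j - 2 * deg i)) with hd
  set d' : Matrix ι ι ℂ := diagonal (fun i => Complex.I ^ (2 * deg i - j)) with hd'
  have h1 : Q⁻¹ * (weil j Q deg * X * weilInv j Q deg) * Q = d * (Q⁻¹ * X * Q) * d' := by
    rw [weil, weilInv, ← hd, ← hd']
    calc Q⁻¹ * (Q * d * Q⁻¹ * X * (Q * d' * Q⁻¹)) * Q
        = (Q⁻¹ * Q) * d * (Q⁻¹ * X * Q) * d' * (Q⁻¹ * Q) := by simp only [Matrix.mul_assoc]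
      _ = _ := by rw [Matrix.nonsing_inv_mul _ hQ, Matrix.one_mul, Matrix.mul_one]
  rw [h1, hd, hd', Matrix.mul_diagonal, Matrix.diagonal_mul]
  have h2 : Complex.I ^ (-2 * (deg i - deg k)) =
      Complex.I ^ (j - 2 * deg i) * Complex.I ^ (2 * deg k - j) := by
    rw [← zpow_add₀ Complex.I_ne_zero]
    congr 1
    ring
  rw [h2]
  ring

theorem eq_of_coord {X Y : Matrix ι ι ℂ} (h : ∀ i k, (Q⁻¹ * X * Q) i k = (Q⁻¹ * Y * Q) i k) : X = Y := by
  have h1 : Q⁻¹ * X * Q = Q⁻¹ * Y * Q := by ext i k; exact h i k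
  calc X = (Q * Q⁻¹) * X * (Q * Q⁻¹) := by
        rw [Matrix.mul_nonsing_inv _ hQ, Matrix.one_mul, Matrix.mul_one]
    _ = Q * (Q⁻¹ * X * Q) * Q⁻¹ := by simp only [Matrix.mul_assoc]
    _ = (Q * Q⁻¹) * Y * (Q * Q⁻¹) := by rw [h1]; simp only [Matrix.mul_assoc]
    _ = Y := by rw [Matrix.mul_nonsing_inv _ hQ, Matrix.one_mul, Matrix.mul_one]

/-- A space of operators which is stable under commutation with the Hodge operator is stable under conjugation
with the Weil operator. -/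
theorem weil_stable {W : Submodule ℂ (Matrix ι ι ℂ)}
    (hW : ∀ X ∈ W, hop j Q deg * X - X * hop j Q deg ∈ W) {X : Matrix ι ι ℂ} (hX : X ∈ W) :
    weil j Q deg * X * weilInv j Q deg ∈ W := by
  -- polynomials in the commutation operator
  have key : ∀ f : Polynomial ℂ, ∀ X ∈ W, ∃ Y ∈ W, ∀ i k,
      (Q⁻¹ * Y * Q) i k = f.eval ((2 * (deg i - deg k) : ℤ) : ℂ) * (Q⁻¹ * X * Q) i k := by
    intro f
    induction f using Polynomial.induction_on' with
    | add p q hp hq =>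
      intro X hX
      obtain ⟨Y, hY, hY'⟩ := hp X hX
      obtain ⟨Z, hZ, hZ'⟩ := hq X hX
      refine ⟨Y + Z, W.add_mem hY hZ, fun i k => ?_⟩
      rw [Matrix.mul_add, Matrix.add_mul, Matrix.add_apply, hY', hZ', Polynomial.eval_add, add_mul]
    | monomial n a =>
      intro X hX
      induction n generalizing X with
      | zero =>
        refine ⟨a • X, W.smul_mem _ hX, fun i k => ?_⟩
        rw [Polynomial.monomial_zero_left, Polynomial.eval_C, Matrix.mul_smul, Matrix.smul_mul,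
          Matrix.smul_apply, smul_eq_mul]
      | succ n ih =>
        obtain ⟨Y, hY, hY'⟩ := ih _ (hW X hX)
        refine ⟨Y, hY, fun i k => ?_⟩
        rw [hY', coord_hop hQ, Polynomial.eval_monomial, Polynomial.eval_monomial]
        ring
  set s : Finset ℤ := Finset.univ.image fun p : ι × ι => deg p.1 - deg p.2 with hs
  set f := Lagrange.interpolate s (fun n : ℤ => ((2 * n : ℤ) : ℂ)) (fun n => Complex.I ^ (-2 * n)) with hf
  obtain ⟨Y, hY, hY'⟩ := key f X hX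
  have h1 : weil j Q deg * X * weilInv j Q deg = Y := by
    refine eq_of_coord hQ fun i k => ?_
    rw [coord_weil hQ, hY', hf]
    have h2 : Polynomial.eval ((2 * (deg i - deg k) : ℤ) : ℂ)
        (Lagrange.interpolate s (fun n : ℤ => ((2 * n : ℤ) : ℂ)) (fun n => Complex.I ^ (-2 * n))) =
        Complex.I ^ (-2 * (deg i - deg k)) :=
      Lagrange.eval_interpolate_at_node (s := s) (v := fun n : ℤ => ((2 * n : ℤ) : ℂ))
      (fun n => Complex.I ^ (-2 * n)) (i := deg i - deg k) (by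
        intro a _ b _ hab
        have h4 : ((2 * a : ℤ) : ℂ) = ((2 * b : ℤ) : ℂ) := hab
        have h3 : (2 * a : ℤ) = 2 * b := by exact_mod_cast h4
        omega) (Finset.mem_image.mpr ⟨(i, k), Finset.mem_univ _, rfl⟩)
    rw [h2]
  rw [h1]
  exact hY

end Weil

/-- The trace form. -/
theorem trace_pos {M X : Matrix ι ι ℂ} (hM : M.PosDef) (h : (X * (M⁻¹ * Xᴴ * M)).trace = 0) : X = 0 := by
  obtain ⟨B, hB, rfl⟩ := posDef_factor hM
  have hBH : IsUnit (Bᴴ).det := by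
    rw [Matrix.det_conjTranspose]; exact hB.star
  set S := B * X * B⁻¹ with hS
  have h1 : (S * Sᴴ).trace = 0 := by
    rw [← h]
    have h2 : (Bᴴ * B)⁻¹ = B⁻¹ * (Bᴴ)⁻¹ := Matrix.mul_inv_rev _ _
    have h3 : Sᴴ = (Bᴴ)⁻¹ * Xᴴ * Bᴴ := by
      rw [hS, Matrix.conjTranspose_mul, Matrix.conjTranspose_mul, Matrix.conjTranspose_nonsing_inv,
        Matrix.mul_assoc]
    rw [h2, h3, hS]
    calc (B * X * B⁻¹ * ((Bᴴ)⁻¹ * Xᴴ * Bᴴ)).trace
        = (B * (X * B⁻¹ * ((Bᴴ)⁻¹ * Xᴴ * Bᴴ))).trace := by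
          simp only [Matrix.mul_assoc]
      _ = ((X * B⁻¹ * ((Bᴴ)⁻¹ * Xᴴ * Bᴴ)) * B).trace := Matrix.trace_mul_comm _ _
      _ = _ := by simp only [Matrix.mul_assoc]
  have h4 : S = 0 := Matrix.trace_mul_conjTranspose_self_eq_zero_iff.mp h1
  calc X = (B⁻¹ * B) * X * (B⁻¹ * B) := by
        rw [Matrix.nonsing_inv_mul _ hB, Matrix.one_mul, Matrix.mul_one]
    _ = B⁻¹ * S * B := by rw [hS]; simp only [Matrix.mul_assoc]
    _ = 0 := by rw [h4, Matrix.mul_zero, Matrix.zero_mul]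

/-- The trace form is nondegenerate on a space of skew operators, stable under complex conjugation and under commutation
with the Hodge operator. -/
theorem nondeg_of_stable {j : ℤ} {ψ Q : Matrix ι ι ℂ} {deg : ι → ℤ} (F : PolFrame j ψ Q deg)
    {W : Submodule ℂ (Matrix ι ι ℂ)}
    (hW : ∀ X ∈ W, hop j Q deg * X - X * hop j Q deg ∈ W) (hcj : ∀ X ∈ W, cj X ∈ W)
    (hsk : ∀ X ∈ W, Xᵀ * ψ + ψ * X = 0) {X : Matrix ι ι ℂ} (hX : X ∈ W)
    (h : ∀ Z ∈ W, (X * Z).trace = 0) : X = 0 := by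
  have hQ := F.unit
  have hΨ : IsUnit (ψᵀ).det := by rw [Matrix.det_transpose]; exact F.unitΨ
  refine trace_pos F.posM ?_
  have e1 := weil_mul_inv j Q deg hQ
  have hinv : (ψᵀ * weilInv j Q deg)⁻¹ = weil j Q deg * (ψᵀ)⁻¹ := by
    apply Matrix.inv_eq_left_inv
    calc weil j Q deg * (ψᵀ)⁻¹ * (ψᵀ * weilInv j Q deg)
        = weil j Q deg * ((ψᵀ)⁻¹ * ψᵀ) * weilInv j Q deg := by simp only [Matrix.mul_assoc]
      _ = 1 := by rw [Matrix.nonsing_inv_mul _ hΨ, Matrix.mul_one, e1]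
  have h1 : (ψᵀ)⁻¹ * Xᴴ * ψᵀ = - cj X := by
    have h2 := hsk _ (hcj X hX)
    have h3 : Xᴴ * ψᵀ = - (ψᵀ * cj X) := by
      have h4 := congrArg Matrix.transpose h2
      rw [Matrix.transpose_add, Matrix.transpose_mul, Matrix.transpose_mul, Matrix.transpose_transpose,
        Matrix.transpose_zero] at h4
      have h5 : (cj X)ᵀ = Xᴴ := rfl
      rw [h5] at h4
      exact eq_neg_of_add_eq_zero_right h4
    rw [Matrix.mul_assoc, h3, Matrix.mul_neg, ← Matrix.mul_assoc, Matrix.nonsing_inv_mul _ hΨ,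
      Matrix.one_mul]
  have h6 : (ψᵀ * weilInv j Q deg)⁻¹ * Xᴴ * (ψᵀ * weilInv j Q deg) =
      - (weil j Q deg * cj X * weilInv j Q deg) := by
    rw [hinv]
    calc weil j Q deg * (ψᵀ)⁻¹ * Xᴴ * (ψᵀ * weilInv j Q deg)
        = weil j Q deg * ((ψᵀ)⁻¹ * Xᴴ * ψᵀ) * weilInv j Q deg := by simp only [Matrix.mul_assoc]
      _ = _ := by rw [h1, Matrix.mul_neg, Matrix.neg_mul]
  rw [h6, Matrix.mul_neg, Matrix.trace_neg, h _ (weil_stable hQ hW (hcj X hX)), neg_zero]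

end Pool.Agent.Helper79.HH
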