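import Pool.Agent.Helper79.HH.LieArg

/-!
# HH: the commutators of operators commuting with all Hodge operators are in the Mumford-Tate Lie algebra
-/

namespace Pool.Agent.Helper79.HH

open Matrix
open scoped Kronecker ComplexOrder

variable {ι : Type} [Fintype ι] [DecidableEq ι]

/-- The trace form. -/
noncomputable def trB : LinearMap.BilinForm ℚ (Matrix ι ι ℚ) :=
  (LinearMap.mul ℚ (Matrix ι ι ℚ)).compr₂ (Matrix.traceLinearMap ι ℚ ℚ)

theorem trB_apply (X Y : Matrix ι ι ℚ) : trB X Y = (X * Y).trace := rfl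

theorem exists_proj {g : Submodule ℚ (Matrix ι ι ℚ)}
    (hnd : ∀ X ∈ g, (∀ Z ∈ g, (X * Z).trace = 0) → X = 0) :
    ∃ T : Matrix (ι × ι) (ι × ι) ℚ, (∀ X, act T X ∈ g) ∧ (∀ X ∈ g, act T X = X) ∧
      ∀ X, ∀ Z ∈ g, ((X - act T X) * Z).trace = 0 := by
  have hrefl : (trB : LinearMap.BilinForm ℚ (Matrix ι ι ℚ)).IsRefl := by
    intro X Y h
    rw [trB_apply] at h ⊢
    rw [Matrix.trace_mul_comm]
    exact h
  have hc : IsCompl g (trB.orthogonal g) := by
    rw [LinearMap.BilinForm.isCompl_orthogonal_iff_disjoint hrefl, Submodule.disjoint_def]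
    intro X hX hX'
    refine hnd X hX fun Z hZ => ?_
    rw [LinearMap.BilinForm.mem_orthogonal_iff] at hX'
    have h1 := hX' Z hZ
    have h2 : trB Z X = 0 := h1
    rw [trB_apply, Matrix.trace_mul_comm] at h2
    exact h2
  set π := g.projection (trB.orthogonal g) hc with hπ
  refine ⟨Matrix.of fun p q => π (Matrix.single q.1 q.2 1) p.1 p.2, ?_⟩
  have h1 : ∀ X, act (Matrix.of fun p q => π (Matrix.single q.1 q.2 1) p.1 p.2) X = π X := by
    intro X
    conv_rhs => rw [Matrix.matrix_eq_sum_single X]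
    rw [map_sum]
    ext a b
    rw [act, Matrix.of_apply, Fintype.sum_prod_type, Matrix.sum_apply]
    refine Finset.sum_congr rfl fun c _ => ?_
    rw [map_sum, Matrix.sum_apply]
    refine Finset.sum_congr rfl fun d _ => ?_
    have h2 : Matrix.single c d (X c d) = X c d • Matrix.single c d (1 : ℚ) := by
      rw [Matrix.smul_single, smul_eq_mul, mul_one]
    rw [h2, map_smul, Matrix.smul_apply, smul_eq_mul, Matrix.of_apply, mul_comm]
  refine ⟨fun X => ?_, fun X hX => ?_, fun X Z hZ => ?_⟩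
  · rw [h1]; exact Submodule.projection_apply_mem hc X
  · rw [h1]; exact Submodule.projection_apply_of_mem_left hc hX
  · rw [h1]
    have h3 : X - π X ∈ trB.orthogonal g := by
      rw [← Submodule.projection_apply_eq_zero_iff hc, map_sub, ← hπ]
      rw [Submodule.projection_apply_of_mem_left hc (Submodule.projection_apply_mem hc X), sub_self]
    rw [LinearMap.BilinForm.mem_orthogonal_iff] at h3
    have h4 : trB Z (X - π X) = 0 := h3 Z hZ
    rw [trB_apply, Matrix.trace_mul_comm] at h4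
    exact h4

omit [DecidableEq ι] in
theorem tr_br (A Y Z : Matrix ι ι ℂ) :
    ((A * Y - Y * A) * Z).trace = - (Y * (A * Z - Z * A)).trace := by
  have h1 : (A * Y * Z).trace = (Y * (Z * A)).trace := by
    rw [Matrix.mul_assoc, Matrix.trace_mul_comm, Matrix.mul_assoc]
  rw [Matrix.sub_mul, Matrix.mul_sub, Matrix.trace_sub, Matrix.trace_sub, h1, Matrix.mul_assoc Y A Z]
  ring

omit [DecidableEq ι] in
theorem tr_br' (Y Z V : Matrix ι ι ℂ) :
    ((Y * Z - Z * Y) * V).trace = (Y * (Z * V - V * Z)).trace := by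
  have h1 : (Z * Y * V).trace = (Y * (V * Z)).trace := by
    rw [Matrix.mul_assoc, Matrix.trace_mul_comm, Matrix.mul_assoc]
  rw [Matrix.sub_mul, Matrix.mul_sub, Matrix.trace_sub, Matrix.trace_sub, h1, Matrix.mul_assoc Y Z V]

omit [DecidableEq ι] in
theorem cx_bracket {g : Submodule ℚ (Matrix ι ι ℚ)} (hg : ∀ X ∈ g, ∀ Y ∈ g, X * Y - Y * X ∈ g)
    {X Y : Matrix ι ι ℂ} (hX : X ∈ cx g) (hY : Y ∈ cx g) : X * Y - Y * X ∈ cx g := by
  refine Submodule.span_induction (p := fun X _ => X * Y - Y * X ∈ cx g) ?_ ?_ ?_ ?_ hX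
  · rintro _ ⟨A, hA, rfl⟩
    refine Submodule.span_induction
      (p := fun Y _ => A.map (Rat.cast : ℚ → ℂ) * Y - Y * A.map (Rat.cast : ℚ → ℂ) ∈ cx g) ?_ ?_ ?_ ?_ hY
    · rintro _ ⟨B, hB, rfl⟩
      have h1 := qc_mem (hg A hA B hB)
      have h2 : qc (A * B - B * A) = qc A * qc B - qc B * qc A := by
        rw [qc, Matrix.map_sub _ (by intro a b; push_cast; ring)]
        congr 1 <;> · ext a b; simp [Matrix.mul_apply]
      rw [h2] at h1
      exact h1
    · rw [Matrix.mul_zero, Matrix.zero_mul, sub_zero]; exact Submodule.zero_mem _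
    · intro Y Z _ _ hY hZ
      rw [Matrix.mul_add, Matrix.add_mul]
      have := Submodule.add_mem _ hY hZ
      convert this using 1
      abel
    · intro c Y _ hY
      rw [Matrix.mul_smul, Matrix.smul_mul, ← smul_sub]
      exact Submodule.smul_mem _ _ hY
  · rw [Matrix.mul_zero, Matrix.zero_mul, sub_zero]; exact Submodule.zero_mem _
  · intro X Z _ _ hX hZ
    rw [Matrix.mul_add, Matrix.add_mul]
    have := Submodule.add_mem _ hX hZ
    convert this using 1
    abel
  · intro c X _ hX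
    rw [Matrix.mul_smul, Matrix.smul_mul, ← smul_sub]
    exact Submodule.smul_mem _ _ hX

theorem hop_skew {j : ℤ} {Ψ Q : Matrix ι ι ℂ} {deg : ι → ℤ} (F : PolFrame j Ψ Q deg) :
    (hop j Q deg)ᵀ * Ψ + Ψ * hop j Q deg = 0 := by
  have hQ := F.unit
  have hQT : (Q⁻¹)ᵀ * Qᵀ = 1 := by
    rw [← Matrix.transpose_mul, Matrix.mul_nonsing_inv _ hQ, Matrix.transpose_one]
  set d : Matrix ι ι ℂ := diagonal (fun i => ((2 * deg i - j : ℤ) : ℂ)) with hd
  have h1 : d * (Qᵀ * Ψ * Q) + (Qᵀ * Ψ * Q) * d = 0 := by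
    ext i k
    rw [Matrix.add_apply, hd, Matrix.diagonal_mul, Matrix.mul_diagonal, Matrix.zero_apply]
    by_cases h2 : deg i = j - deg k
    · rw [h2]; push_cast; ring
    · rw [F.homo_form i k h2]; ring
  have h3 : (hop j Q deg)ᵀ * Ψ + Ψ * hop j Q deg =
      (Q⁻¹)ᵀ * (d * (Qᵀ * Ψ * Q) + (Qᵀ * Ψ * Q) * d) * Q⁻¹ := by
    rw [Matrix.mul_add, Matrix.add_mul, hop, ← hd, Matrix.transpose_mul, Matrix.transpose_mul]
    rw [show dᵀ = d by rw [hd, Matrix.diagonal_transpose]]
    congr 1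
    · calc (Q⁻¹)ᵀ * (d * Qᵀ) * Ψ = (Q⁻¹)ᵀ * (d * Qᵀ) * Ψ * (Q * Q⁻¹) := by
            rw [Matrix.mul_nonsing_inv _ hQ, Matrix.mul_one]
        _ = _ := by simp only [Matrix.mul_assoc]
    · calc Ψ * (Q * d * Q⁻¹) = ((Q⁻¹)ᵀ * Qᵀ) * (Ψ * (Q * d * Q⁻¹)) := by
            rw [hQT, Matrix.one_mul]
        _ = _ := by simp only [Matrix.mul_assoc]
  rw [h3, h1, Matrix.mul_zero, Matrix.zero_mul]

theorem adM_hop {j : ℤ} {Q : Matrix ι ι ℂ} {deg : ι → ℤ} (hQ : IsUnit Q.det) :
    adM (hop j Q deg) =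
      adm Q * diagonal (fun p => (fun n : ℤ => ((2 * n : ℤ) : ℂ)) (dd deg p)) * (adm Q)⁻¹ := by
  set d : Matrix ι ι ℂ := diagonal (fun i => ((2 * deg i - j : ℤ) : ℂ)) with hd
  have h1 : (diagonal (fun p => (fun n : ℤ => ((2 * n : ℤ) : ℂ)) (dd deg p)) : Matrix (ι × ι) (ι × ι) ℂ) =
      d ⊗ₖ 1 - 1 ⊗ₖ d := by
    rw [hd, ← diagonal_one, diagonal_kronecker_diagonal, diagonal_kronecker_diagonal, Matrix.diagonal_sub]
    congr 1
    funext p
    simp only [dd, mul_one, one_mul]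
    push_cast
    ring
  have hQT : (Q⁻¹)ᵀ * Qᵀ = 1 := by
    rw [← Matrix.transpose_mul, Matrix.mul_nonsing_inv _ hQ, Matrix.transpose_one]
  rw [h1, adm_inv hQ, adm, adm, Matrix.nonsing_inv_nonsing_inv _ hQ, Matrix.mul_sub, Matrix.sub_mul,
    ← mul_kronecker_mul, ← mul_kronecker_mul, ← mul_kronecker_mul, ← mul_kronecker_mul, Matrix.mul_one,
    Matrix.mul_one, hQT, Matrix.mul_nonsing_inv _ hQ, adM, hop, ← hd]
  congr 2
  rw [Matrix.transpose_mul, Matrix.transpose_mul]
  rw [show dᵀ = d by rw [hd, Matrix.diagonal_transpose], Matrix.mul_assoc]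

section Main

variable {j : ℤ} {ψ : Matrix ι ι ℚ} {Q : Matrix ι ι ℂ} {deg : ι → ℤ}

/-- An operator which commutes with all Hodge operators. -/
def CommHodge (Q : Matrix ι ι ℂ) (deg : ι → ℤ) (x : Matrix ι ι ℂ) : Prop :=
  ∀ T : Matrix (ι × ι) (ι × ι) ℚ, Homo (dd deg) (dd deg) ((adm Q)⁻¹ * qc T * adm Q) →
    adM x * qc T = qc T * adM x

theorem comm_end (hQ : IsUnit Q.det) {x : Matrix ι ι ℂ} (hx : CommHodge Q deg x) {A : Matrix ι ι ℚ}
    (hA : qc A * hop j Q deg = hop j Q deg * qc A) : x * qc A = qc A * x := by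
  have h1 : Homo deg deg (Q⁻¹ * qc A * Q) := by
    refine homo_of_comm hQ (fun n => ((2 * n - j : ℤ) : ℂ)) ?_ hA
    intro a b hab
    have h4 : ((2 * a - j : ℤ) : ℂ) = ((2 * b - j : ℤ) : ℂ) := hab
    have h3 : (2 * a - j : ℤ) = 2 * b - j := by exact_mod_cast h4
    omega
  have hqc : qc (A ⊗ₖ (1 : Matrix ι ι ℚ)) = qc A ⊗ₖ (1 : Matrix ι ι ℂ)ᵀ := by
    ext p q
    simp only [qc, Matrix.map_apply, kroneckerMap_apply, Matrix.transpose_one, Matrix.one_apply]
    split_ifs <;> simp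
  have h2 := hx (A ⊗ₖ (1 : Matrix ι ι ℚ)) (by
    have h3 : (adm Q)⁻¹ * qc (A ⊗ₖ (1 : Matrix ι ι ℚ)) * adm Q =
        (Q⁻¹ * qc A * Q) ⊗ₖ (1 : Matrix ι ι ℂ)ᵀ := by
      have hQT : Qᵀ * (Q⁻¹)ᵀ = 1 := by
        rw [← Matrix.transpose_mul, Matrix.nonsing_inv_mul _ hQ, Matrix.transpose_one]
      rw [hqc, adm_inv hQ, adm, adm, ← mul_kronecker_mul, ← mul_kronecker_mul,
        Matrix.nonsing_inv_nonsing_inv _ hQ, Matrix.transpose_one, Matrix.mul_one, hQT]
    rw [h3]
    refine h1.kron ?_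
    rw [← diagonal_one]
    exact homo_diagonal _ _)
  have h5 := congrArg (fun T => act T (1 : Matrix ι ι ℂ)) h2
  simp only [act_mul, act_adM, hqc, act_kron, Matrix.mul_one, Matrix.one_mul, sub_self,
    Matrix.mul_zero] at h5
  exact sub_eq_zero.mp h5

theorem lie_arg (F : PolFrame j (qc ψ) Q deg) {g : Submodule ℚ (Matrix ι ι ℚ)}
    (hg : ∀ X ∈ g, ∀ Y ∈ g, X * Y - Y * X ∈ g) (hD : hop j Q deg ∈ cx g) {x y : Matrix ι ι ℂ}
    (hx : CommHodge Q deg x) (hy : CommHodge Q deg y) : x * y - y * x ∈ cx g := by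
  have hQ := F.unit
  -- intersect with the skew operators
  obtain ⟨g', hg'le, hg'sk, hg'br, hD'⟩ : ∃ g' : Submodule ℚ (Matrix ι ι ℚ), g' ≤ g ∧
      (∀ X ∈ g', Xᵀ * ψ + ψ * X = 0) ∧ (∀ X ∈ g', ∀ Y ∈ g', X * Y - Y * X ∈ g') ∧
      hop j Q deg ∈ cx g' := by
    let so : Submodule ℚ (Matrix ι ι ℚ) :=
      { carrier := {X | Xᵀ * ψ + ψ * X = 0}
        add_mem' := by
          intro X Y hX hY
          simp only [Set.mem_ofPred_eq] at hX hY ⊢
          rw [Matrix.transpose_add, Matrix.add_mul, Matrix.mul_add]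
          calc Xᵀ * ψ + Yᵀ * ψ + (ψ * X + ψ * Y) = (Xᵀ * ψ + ψ * X) + (Yᵀ * ψ + ψ * Y) := by abel
            _ = 0 := by rw [hX, hY, add_zero]
        zero_mem' := by
          simp
        smul_mem' := by
          intro c X hX
          simp only [Set.mem_ofPred_eq] at hX ⊢
          rw [Matrix.transpose_smul, Matrix.smul_mul, Matrix.mul_smul, ← smul_add, hX, smul_zero] }
    refine ⟨g ⊓ so, inf_le_left, fun X hX => hX.2, fun X hX Y hY => ⟨hg X hX.1 Y hY.1, ?_⟩, ?_⟩
    · have h1 : Xᵀ * ψ = - (ψ * X) := eq_neg_of_add_eq_zero_left hX.2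
      have h2 : Yᵀ * ψ = - (ψ * Y) := eq_neg_of_add_eq_zero_left hY.2
      change (X * Y - Y * X)ᵀ * ψ + ψ * (X * Y - Y * X) = 0
      rw [Matrix.transpose_sub, Matrix.transpose_mul, Matrix.transpose_mul, Matrix.sub_mul,
        Matrix.mul_assoc, Matrix.mul_assoc, h1, h2, Matrix.mul_neg, Matrix.mul_neg, ← Matrix.mul_assoc,
        ← Matrix.mul_assoc, h1, h2, Matrix.mul_sub]
      noncomm_ring
    · refine mem_of_comp fun k => ⟨comp_mem hD k, ?_⟩
      have h3 := congrArg (comp k) (hop_skew F)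
      rw [comp_add, comp_mul_right, comp_mul_left, comp_transpose, comp_zero] at h3
      exact h3
  suffices hsuf : x * y - y * x ∈ cx g' by
    refine Submodule.span_mono ?_ hsuf
    rintro _ ⟨Z, hZ, rfl⟩
    exact ⟨Z, hg'le hZ, rfl⟩
  -- properties of `W`
  set W := cx g' with hWdef
  have hbr : ∀ X ∈ W, ∀ Y ∈ W, X * Y - Y * X ∈ W := fun X hX Y hY => cx_bracket hg'br hX hY
  have hst : ∀ X ∈ W, hop j Q deg * X - X * hop j Q deg ∈ W := fun X hX => hbr _ hD' X hX
  have hcj : ∀ X ∈ W, cj X ∈ W := fun X hX => cj_mem hX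
  have hsk : ∀ X ∈ W, Xᵀ * qc ψ + qc ψ * X = 0 := by
    intro X hX
    refine Submodule.span_induction (p := fun X _ => Xᵀ * qc ψ + qc ψ * X = 0) ?_ ?_ ?_ ?_ hX
    · rintro _ ⟨A, hA, rfl⟩
      have h1 := congrArg (fun M : Matrix ι ι ℚ => M.map (Rat.cast : ℚ → ℂ)) (hg'sk A hA)
      have h2 : (Aᵀ * ψ + ψ * A).map (Rat.cast : ℚ → ℂ) =
          (A.map (Rat.cast : ℚ → ℂ))ᵀ * qc ψ + qc ψ * A.map (Rat.cast : ℚ → ℂ) := by
        ext a b; simp [Matrix.mul_apply]
      rw [← h2, h1]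
      ext a b; simp
    · rw [Matrix.transpose_zero, Matrix.zero_mul, Matrix.mul_zero, add_zero]
    · intro X Y _ _ hX hY
      rw [Matrix.transpose_add, Matrix.add_mul, Matrix.mul_add]
      calc _ = (Xᵀ * qc ψ + qc ψ * X) + (Yᵀ * qc ψ + qc ψ * Y) := by abel
        _ = 0 := by rw [hX, hY, add_zero]
    · intro c X _ hX
      rw [Matrix.transpose_smul, Matrix.smul_mul, Matrix.mul_smul, ← smul_add, hX, smul_zero]
  have hnd : ∀ X ∈ W, (∀ Z ∈ W, (X * Z).trace = 0) → X = 0 := fun X hX h =>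
    nondeg_of_stable F hst hcj hsk hX h
  -- the projector
  obtain ⟨T, hT1, hT2, hT3⟩ := exists_proj (g := g') (by
    intro X hX h
    have h1 : qc X = 0 := by
      refine hnd _ (qc_mem hX) fun Z hZ => ?_
      refine Submodule.span_induction (p := fun Z _ => (qc X * Z).trace = 0) ?_ ?_ ?_ ?_ hZ
      · rintro _ ⟨A, hA, rfl⟩
        have h2 : (qc X * A.map (Rat.cast : ℚ → ℂ)).trace = (((X * A).trace : ℚ) : ℂ) := by
          simp [Matrix.trace, Matrix.mul_apply]
        rw [h2, h A hA, Rat.cast_zero]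
      · rw [Matrix.mul_zero, Matrix.trace_zero]
      · intro Y Z _ _ hY hZ
        rw [Matrix.mul_add, Matrix.trace_add, hY, hZ, add_zero]
      · intro c Z _ hZ
        rw [Matrix.mul_smul, Matrix.trace_smul, hZ, smul_zero]
    ext a b
    have h3 := congrFun (congrFun h1 a) b
    simp only [qc, Matrix.map_apply, Matrix.zero_apply, Rat.cast_eq_zero] at h3
    exact h3)
  have hT1' : ∀ X, act (qc T) X ∈ W := by
    intro X
    obtain ⟨s, hs⟩ := eq_sum_comp X
    rw [hs, act_sum]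
    refine Submodule.sum_mem _ fun k _ => ?_
    rw [act_smul, act_qc]
    exact Submodule.smul_mem _ _ (qc_mem (hT1 _))
  have hT2' : ∀ X ∈ W, act (qc T) X = X := by
    intro X hX
    refine Submodule.span_induction (p := fun X _ => act (qc T) X = X) ?_ ?_ ?_ ?_ hX
    · rintro _ ⟨A, hA, rfl⟩
      have := act_qc T A
      rw [hT2 A hA] at this
      exact this
    · exact act_zero _
    · intro X Y _ _ hX hY
      rw [act_add, hX, hY]
    · intro c X _ hX
      rw [act_smul, hX]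
  have hT3' : ∀ X, ∀ Z ∈ W, ((X - act (qc T) X) * Z).trace = 0 := by
    intro X Z hZ
    refine Submodule.span_induction (p := fun Z _ => ((X - act (qc T) X) * Z).trace = 0) ?_ ?_ ?_ ?_ hZ
    · rintro _ ⟨A, hA, rfl⟩
      obtain ⟨s, hs⟩ := eq_sum_comp X
      have h4 : X - act (qc T) X = ∑ k ∈ s, (bq k : ℂ) • qc (comp k X - act T (comp k X)) := by
        conv_lhs => rw [hs]
        rw [act_sum, ← Finset.sum_sub_distrib]
        refine Finset.sum_congr rfl fun k _ => ?_
        rw [act_smul, act_qc, ← smul_sub]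
        congr 1
        ext a b; simp [qc]
      rw [h4, Finset.sum_mul, Matrix.trace_sum]
      refine Finset.sum_eq_zero fun k _ => ?_
      rw [Matrix.smul_mul, Matrix.trace_smul]
      have h5 : (qc (comp k X - act T (comp k X)) * A.map (Rat.cast : ℚ → ℂ)).trace =
          ((((comp k X - act T (comp k X)) * A).trace : ℚ) : ℂ) := by
        simp [Matrix.trace, Matrix.mul_apply]
      rw [h5, hT3 _ A hA, Rat.cast_zero, smul_zero]
    · rw [Matrix.mul_zero, Matrix.trace_zero]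
    · intro Y Z _ _ hY hZ
      rw [Matrix.mul_add, Matrix.trace_add, hY, hZ, add_zero]
    · intro c Z _ hZ
      rw [Matrix.mul_smul, Matrix.trace_smul, hZ, smul_zero]
  have hT4 : ∀ Y, (∀ Z ∈ W, (Y * Z).trace = 0) → act (qc T) Y = 0 := by
    intro Y hY
    refine hnd _ (hT1' Y) fun Z hZ => ?_
    have h1 := hT3' Y Z hZ
    rw [Matrix.sub_mul, Matrix.trace_sub, hY Z hZ, zero_sub, neg_eq_zero] at h1
    exact h1
  -- the projector is a Hodge operator
  have hHomo : Homo (dd deg) (dd deg) ((adm Q)⁻¹ * qc T * adm Q) := by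
    refine homo_of_comm (adm_unit hQ) (fun n => ((2 * n : ℤ) : ℂ)) ?_ ?_
    · intro a b hab
      have h4 : ((2 * a : ℤ) : ℂ) = ((2 * b : ℤ) : ℂ) := hab
      have h3 : (2 * a : ℤ) = 2 * b := by exact_mod_cast h4
      omega
    · rw [← adM_hop hQ (j := j)]
      refine act_ext fun X => ?_
      rw [act_mul, act_mul, act_adM, act_adM]
      set D := hop j Q deg with hDdef
      set X₁ := act (qc T) X with hX₁
      have hX₁m : X₁ ∈ W := hT1' X
      have h1 : D * X - X * D = (D * X₁ - X₁ * D) + (D * (X - X₁) - (X - X₁) * D) := by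
        rw [Matrix.mul_sub, Matrix.sub_mul]; abel
      have h2 : act (qc T) (D * (X - X₁) - (X - X₁) * D) = 0 := by
        refine hT4 _ fun Z hZ => ?_
        rw [tr_br, hT3' X _ (hst Z hZ), neg_zero]
      rw [h1, act_add, h2, add_zero, hT2' _ (hst X₁ hX₁m)]
  -- stability under `x`
  have hstx : ∀ {x : Matrix ι ι ℂ}, CommHodge Q deg x → ∀ X ∈ W, x * X - X * x ∈ W := by
    intro x hx X hX
    have h1 := congrArg (fun T => act T X) (hx T hHomo)
    rw [act_mul, act_mul, act_adM, act_adM, hT2' X hX] at h1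
    rw [h1]
    exact hT1' _
  -- the centraliser
  have hcent : ∀ {x : Matrix ι ι ℂ}, CommHodge Q deg x → ∀ c : Matrix ι ι ℂ,
      (∀ Z ∈ W, c * Z - Z * c = 0) → x * c - c * x = 0 := by
    intro x hx c hc
    obtain ⟨s, hs⟩ := eq_sum_comp c
    have h1 : ∀ k, x * qc (comp k c) = qc (comp k c) * x := by
      intro k
      refine comm_end (j := j) hQ hx ?_
      have h2 : ∀ Z ∈ W, qc (comp k c) * Z - Z * qc (comp k c) = 0 := by
        intro Z hZ
        refine Submodule.span_induction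
          (p := fun Z _ => qc (comp k c) * Z - Z * qc (comp k c) = 0) ?_ ?_ ?_ ?_ hZ
        · rintro _ ⟨A, hA, rfl⟩
          have h3 := congrArg (comp k) (hc _ (qc_mem hA))
          rw [comp_sub, comp_mul_right, comp_mul_left, comp_zero] at h3
          have h4 := congrArg (fun M : Matrix ι ι ℚ => M.map (Rat.cast : ℚ → ℂ)) h3
          have h5 : (comp k c * A - A * comp k c).map (Rat.cast : ℚ → ℂ) =
              qc (comp k c) * A.map (Rat.cast : ℚ → ℂ) - A.map (Rat.cast : ℚ → ℂ) * qc (comp k c) := by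
            ext a b; simp [Matrix.mul_apply]
          rw [← h5, h4]
          ext a b; simp
        · rw [Matrix.mul_zero, Matrix.zero_mul, sub_zero]
        · intro Y Z _ _ hY hZ
          rw [Matrix.mul_add, Matrix.add_mul]
          calc _ = (qc (comp k c) * Y - Y * qc (comp k c)) + (qc (comp k c) * Z - Z * qc (comp k c)) := by
                abel
            _ = 0 := by rw [hY, hZ, add_zero]
        · intro a Z _ hZ
          rw [Matrix.mul_smul, Matrix.smul_mul, ← smul_sub, hZ, smul_zero]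
      exact sub_eq_zero.mp (h2 _ hD')
    rw [hs, Finset.mul_sum, Finset.sum_mul, ← Finset.sum_sub_distrib]
    refine Finset.sum_eq_zero fun k _ => ?_
    rw [Matrix.mul_smul, Matrix.smul_mul, h1, sub_self]
  -- decomposition
  have hdec : ∀ {x : Matrix ι ι ℂ}, CommHodge Q deg x →
      ∀ Z ∈ W, (x - act (qc T) x) * Z - Z * (x - act (qc T) x) = 0 := by
    intro x hx Z hZ
    set mx := act (qc T) x with hmx
    have hmxW : mx ∈ W := hT1' x
    refine hnd _ ?_ fun V hV => ?_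
    · have h1 : (x - mx) * Z - Z * (x - mx) = (x * Z - Z * x) - (mx * Z - Z * mx) := by
        rw [Matrix.mul_sub, Matrix.sub_mul]; abel
      rw [h1]
      exact Submodule.sub_mem _ (hstx hx Z hZ) (hbr mx hmxW Z hZ)
    · rw [tr_br', hT3' x _ (hbr Z hZ V hV)]
  set mx := act (qc T) x with hmx
  set my := act (qc T) y with hmy
  have c1 : y * (x - mx) - (x - mx) * y = 0 := hcent hy _ (hdec hx)
  have c2 : (x - mx) * my - my * (x - mx) = 0 := hdec hx my (hT1' y)
  have c3 : (y - my) * mx - mx * (y - my) = 0 := hdec hy mx (hT1' x)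
  have hfin : x * y - y * x = mx * my - my * mx := by
    have e : x * y - y * x - (mx * my - my * mx) =
        - (y * (x - mx) - (x - mx) * y) - ((y - my) * mx - mx * (y - my)) := by noncomm_ring
    rw [c1, c3] at e
    have e2 : x * y - y * x - (mx * my - my * mx) = 0 := by rw [e]; simp
    exact sub_eq_zero.mp e2
  rw [hfin]
  exact hbr _ (hT1' x) _ (hT1' y)

end Main

end Pool.Agent.Helper79.HH
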