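import Mathlib

/-!
# HH: matrices which are triangular or homogeneous for degrees of the rows and columns
-/

namespace Pool.Agent.Helper79.HH

open Matrix
open scoped Kronecker

/-- `M x i ≠ 0` only for `f x ≤ g i`. -/
def Low {J K : Type} (f : J → ℤ) (g : K → ℤ) (M : Matrix J K ℂ) : Prop :=
  ∀ x i, g i < f x → M x i = 0

/-- `M x i ≠ 0` only for `f x = g i`. -/
def Homo {J K : Type} (f : J → ℤ) (g : K → ℤ) (M : Matrix J K ℂ) : Prop :=
  ∀ x i, f x ≠ g i → M x i = 0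

variable {J K L : Type} [Fintype K]

theorem Low.mul {f : J → ℤ} {g : K → ℤ} {h : L → ℤ} {M : Matrix J K ℂ} {N : Matrix K L ℂ}
    (hM : Low f g M) (hN : Low g h N) : Low f h (M * N) := by
  intro x i hxi
  rw [Matrix.mul_apply]
  refine Finset.sum_eq_zero fun k _ => ?_
  by_cases h1 : g k < f x
  · rw [hM x k h1, zero_mul]
  · rw [hN k i (lt_of_lt_of_le hxi (not_lt.mp h1)), mul_zero]

theorem Homo.mul {f : J → ℤ} {g : K → ℤ} {h : L → ℤ} {M : Matrix J K ℂ} {N : Matrix K L ℂ}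
    (hM : Homo f g M) (hN : Homo g h N) : Homo f h (M * N) := by
  intro x i hxi
  rw [Matrix.mul_apply]
  refine Finset.sum_eq_zero fun k _ => ?_
  by_cases h1 : f x = g k
  · rw [hN k i (fun h2 => hxi (h1.trans h2)), mul_zero]
  · rw [hM x k h1, zero_mul]

omit [Fintype K] in
theorem Homo.low {f : J → ℤ} {g : K → ℤ} {M : Matrix J K ℂ} (hM : Homo f g M) : Low f g M :=
  fun x i h => hM x i (ne_of_gt h)

omit [Fintype K] in
theorem Homo.transpose {f : J → ℤ} {g : K → ℤ} {M : Matrix J K ℂ} (hM : Homo f g M) :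
    Homo g f Mᵀ := fun x i h => hM i x (Ne.symm h)

omit [Fintype K] in
theorem Homo.map {f : J → ℤ} {g : K → ℤ} {M : Matrix J K ℂ} (hM : Homo f g M) :
    Homo f g (M.map (starRingEnd ℂ)) := fun x i h => by
  rw [Matrix.map_apply, hM x i h, map_zero]

omit [Fintype K] in
theorem Homo.congr {f f' : J → ℤ} {g g' : K → ℤ} {M : Matrix J K ℂ} (hM : Homo f g M)
    (h : ∀ x i, f' x ≠ g' i → f x ≠ g i) : Homo f' g' M := fun x i hx => hM x i (h x i hx)

/-- The degrees of the Kronecker product. -/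
def dd (f : J → ℤ) : J × J → ℤ := fun x => f x.1 - f x.2

omit [Fintype K] in
theorem Low.kron {f : J → ℤ} {g : K → ℤ} {M : Matrix J K ℂ} {N : Matrix K J ℂ}
    (hM : Low f g M) (hN : Low g f N) : Low (dd f) (dd g) (M ⊗ₖ Nᵀ) := by
  rintro ⟨x, w⟩ ⟨i, k⟩ h
  simp only [dd] at h
  rw [Matrix.kroneckerMap_apply, Matrix.transpose_apply]
  by_cases h1 : g i < f x
  · rw [hM x i h1, zero_mul]
  · rw [hN k w (by linarith), mul_zero]

omit [Fintype K] in
theorem Homo.kron {f : J → ℤ} {g : K → ℤ} {M : Matrix J K ℂ} {N : Matrix K J ℂ}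
    (hM : Homo f g M) (hN : Homo g f N) : Homo (dd f) (dd g) (M ⊗ₖ Nᵀ) := by
  rintro ⟨x, w⟩ ⟨i, k⟩ h
  simp only [dd] at h
  rw [Matrix.kroneckerMap_apply, Matrix.transpose_apply]
  by_cases h1 : f x = g i
  · rw [hN k w (fun h2 => h (by rw [h1, h2])), mul_zero]
  · rw [hM x i h1, zero_mul]

theorem homo_diagonal [DecidableEq J] (f : J → ℤ) (d : J → ℂ) : Homo f f (diagonal d) := by
  intro x i h
  exact diagonal_apply_ne _ fun hxi => h (by rw [hxi])

end Pool.Agent.Helper79.HH
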