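import Pool.Agent.Helper79.HH.Low

/-!
# HH: bases adapted to a polarised Hodge structure

The columns of `Q` are a basis of `ℂ^J` consisting of vectors of pure type, `deg` are their degrees, `Ψ` is the
polarisation.
-/

namespace Pool.Agent.Helper79.HH

open Matrix
open scoped Kronecker ComplexOrder

variable {J : Type} [Fintype J] [DecidableEq J]

/-- Complex conjugation of matrices. -/
noncomputable abbrev cj {K L : Type} (M : Matrix K L ℂ) : Matrix K L ℂ := M.map (starRingEnd ℂ)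

/-- A basis adapted to a polarised Hodge structure. -/
structure PolFrame (w : ℤ) (Ψ Q : Matrix J J ℂ) (deg : J → ℤ) : Prop where
  unit : IsUnit Q.det
  conj : Homo deg (fun k => w - deg k) (Q⁻¹ * cj Q)
  orth : Homo deg deg (Qᵀ * Ψ * cj Q)
  pos : ((diagonal fun i => Complex.I ^ (2 * deg i - w)) * (Qᵀ * Ψ * cj Q))ᵀ.PosDef

omit [DecidableEq J] in
theorem cj_mul {K L : Type} (M : Matrix K J ℂ) (N : Matrix J L ℂ) : cj (M * N) = cj M * cj N :=
  Matrix.map_mul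

theorem cj_inv (M : Matrix J J ℂ) (h : IsUnit M.det) : cj M⁻¹ = (cj M)⁻¹ := by
  symm
  apply Matrix.inv_eq_left_inv
  rw [← cj_mul, Matrix.nonsing_inv_mul _ h]
  exact Matrix.map_one _ (map_zero _) (map_one _)

theorem cj_det (M : Matrix J J ℂ) (h : IsUnit M.det) : IsUnit (cj M).det := by
  have h1 : (cj M).det = starRingEnd ℂ M.det := by
    rw [cj, ← RingHom.mapMatrix_apply, ← RingHom.map_det]
  rw [h1]
  exact h.map _

namespace PolFrame

variable {w : ℤ} {Ψ Q : Matrix J J ℂ} {deg : J → ℤ} (F : PolFrame w Ψ Q deg)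
include F

/-- `Ψ` is invertible. -/
theorem unitΨ : IsUnit Ψ.det := by
  have h1 := F.pos.isUnit
  rw [Matrix.isUnit_iff_isUnit_det, Matrix.det_transpose, Matrix.det_mul, Matrix.det_mul,
    Matrix.det_mul] at h1
  exact isUnit_of_mul_isUnit_right (isUnit_of_mul_isUnit_left (isUnit_of_mul_isUnit_right h1))

theorem conj_inv : Homo deg (fun k => w - deg k) ((cj Q)⁻¹ * Q) := by
  have h1 : (cj Q)⁻¹ * Q = cj (Q⁻¹ * cj Q) := by
    rw [cj_mul, cj_inv _ F.unit]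
    congr 1
    ext i k
    simp [cj]
  rw [h1]
  exact F.conj.map

/-- A real operator which preserves the Hodge filtration preserves the Hodge decomposition. -/
theorem homo_of_low {T : Matrix J J ℂ} (hT : cj T = T) (h : Low deg deg (Q⁻¹ * T * Q)) :
    Homo deg deg (Q⁻¹ * T * Q) := by
  have hQ := F.unit
  have hQ' := cj_det Q hQ
  have h1 : Q⁻¹ * T * Q = (Q⁻¹ * cj Q) * (cj (Q⁻¹ * T * Q)) * ((cj Q)⁻¹ * Q) := by
    rw [cj_mul, cj_mul, hT, cj_inv _ hQ]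
    calc Q⁻¹ * T * Q = Q⁻¹ * (cj Q * (cj Q)⁻¹) * T * (cj Q * (cj Q)⁻¹) * Q := by
          rw [Matrix.mul_nonsing_inv _ hQ', Matrix.mul_one, Matrix.mul_one]
      _ = _ := by simp only [Matrix.mul_assoc]
  have h2 : Low (fun i => - deg i) (fun i => - deg i) (Q⁻¹ * T * Q) := by
    rw [h1]
    have a1 : Low (fun i => - deg i) (fun k => deg k - w) (Q⁻¹ * cj Q) := by
      intro x i hx
      exact F.conj x i fun h2 => by
        simp only at h2 hx
        omega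
    have a2 : Low (fun i => deg i - w) (fun k => deg k - w) (cj (Q⁻¹ * T * Q)) := by
      intro x i hx
      rw [cj, Matrix.map_apply, h x i (by simp only at hx; omega), map_zero]
    have a3 : Low (fun i => deg i - w) (fun i => - deg i) ((cj Q)⁻¹ * Q) := by
      intro x i hx
      exact F.conj_inv x i fun h2 => by
        simp only at h2 hx
        omega
    exact (a1.mul a2).mul a3
  intro x i hx
  rcases lt_or_gt_of_ne hx with h3 | h3
  · exact h2 x i (by simp only; omega)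
  · exact h x i h3

/-- The values of the form on two vectors of the basis. -/
theorem homo_form : Homo deg (fun k => w - deg k) (Qᵀ * Ψ * Q) := by
  have h1 : Qᵀ * Ψ * Q = (Qᵀ * Ψ * cj Q) * ((cj Q)⁻¹ * Q) := by
    calc Qᵀ * Ψ * Q = Qᵀ * Ψ * (cj Q * (cj Q)⁻¹) * Q := by
          rw [Matrix.mul_nonsing_inv _ (cj_det Q F.unit), Matrix.mul_one]
      _ = _ := by simp only [Matrix.mul_assoc]
  rw [h1]
  exact F.orth.mul F.conj_inv

end PolFrame

/-- The Weil operator. -/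
noncomputable def weil (w : ℤ) (Q : Matrix J J ℂ) (deg : J → ℤ) : Matrix J J ℂ :=
  Q * diagonal (fun i => Complex.I ^ (w - 2 * deg i)) * Q⁻¹

/-- The inverse of the Weil operator. -/
noncomputable def weilInv (w : ℤ) (Q : Matrix J J ℂ) (deg : J → ℤ) : Matrix J J ℂ :=
  Q * diagonal (fun i => Complex.I ^ (2 * deg i - w)) * Q⁻¹

theorem weil_mul_inv (w : ℤ) (Q : Matrix J J ℂ) (deg : J → ℤ) (h : IsUnit Q.det) :
    weil w Q deg * weilInv w Q deg = 1 := by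
  have h1 : diagonal (fun i => Complex.I ^ (w - 2 * deg i)) *
      diagonal (fun i => Complex.I ^ (2 * deg i - w)) = (1 : Matrix J J ℂ) := by
    rw [diagonal_mul_diagonal, ← diagonal_one]
    congr 1
    funext i
    rw [← zpow_add₀ Complex.I_ne_zero]
    rw [show w - 2 * deg i + (2 * deg i - w) = 0 by ring, zpow_zero]
  calc weil w Q deg * weilInv w Q deg = Q * diagonal (fun i => Complex.I ^ (w - 2 * deg i)) *
        (Q⁻¹ * Q) * diagonal (fun i => Complex.I ^ (2 * deg i - w)) * Q⁻¹ := by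
        simp only [weil, weilInv, Matrix.mul_assoc]
    _ = Q * (diagonal (fun i => Complex.I ^ (w - 2 * deg i)) *
        diagonal (fun i => Complex.I ^ (2 * deg i - w))) * Q⁻¹ := by
        rw [Matrix.nonsing_inv_mul _ h, Matrix.mul_one]
        simp only [Matrix.mul_assoc]
    _ = 1 := by rw [h1, Matrix.mul_one, Matrix.mul_nonsing_inv _ h]

theorem weilInv_mul (w : ℤ) (Q : Matrix J J ℂ) (deg : J → ℤ) (h : IsUnit Q.det) :
    weilInv w Q deg * weil w Q deg = 1 :=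
  mul_eq_one_comm.mp (weil_mul_inv w Q deg h)

/-- An operator preserving the Hodge decomposition commutes with the operators which are scalar on its parts. -/
theorem comm_diag {Q : Matrix J J ℂ} {deg : J → ℤ} (hQ : IsUnit Q.det) {T : Matrix J J ℂ}
    (h : Homo deg deg (Q⁻¹ * T * Q)) (c : ℤ → ℂ) :
    T * (Q * diagonal (fun i => c (deg i)) * Q⁻¹) = Q * diagonal (fun i => c (deg i)) * Q⁻¹ * T := by
  have h1 : (Q⁻¹ * T * Q) * diagonal (fun i => c (deg i)) =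
      diagonal (fun i => c (deg i)) * (Q⁻¹ * T * Q) := by
    ext i k
    rw [Matrix.mul_diagonal, Matrix.diagonal_mul]
    by_cases h2 : deg i = deg k
    · rw [h2, mul_comm]
    · rw [h i k h2, zero_mul, mul_zero]
  calc T * (Q * diagonal (fun i => c (deg i)) * Q⁻¹)
      = (Q * Q⁻¹) * T * (Q * diagonal (fun i => c (deg i)) * Q⁻¹) := by
        rw [Matrix.mul_nonsing_inv _ hQ, Matrix.one_mul]
    _ = Q * ((Q⁻¹ * T * Q) * diagonal (fun i => c (deg i))) * Q⁻¹ := by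
        simp only [Matrix.mul_assoc]
    _ = Q * diagonal (fun i => c (deg i)) * Q⁻¹ * T * (Q * Q⁻¹) := by
        rw [h1]; simp only [Matrix.mul_assoc]
    _ = _ := by rw [Matrix.mul_nonsing_inv _ hQ, Matrix.mul_one]

/-- Conversely. -/
theorem homo_of_comm {Q : Matrix J J ℂ} {deg : J → ℤ} (hQ : IsUnit Q.det) {T : Matrix J J ℂ}
    (c : ℤ → ℂ) (hc : Function.Injective c)
    (h : T * (Q * diagonal (fun i => c (deg i)) * Q⁻¹) = Q * diagonal (fun i => c (deg i)) * Q⁻¹ * T) :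
    Homo deg deg (Q⁻¹ * T * Q) := by
  have h1 : (Q⁻¹ * T * Q) * diagonal (fun i => c (deg i)) =
      diagonal (fun i => c (deg i)) * (Q⁻¹ * T * Q) := by
    calc (Q⁻¹ * T * Q) * diagonal (fun i => c (deg i))
        = Q⁻¹ * (T * (Q * diagonal (fun i => c (deg i)) * Q⁻¹)) * Q := by
          calc _ = (Q⁻¹ * T * Q) * diagonal (fun i => c (deg i)) * (Q⁻¹ * Q) := by
                rw [Matrix.nonsing_inv_mul _ hQ, Matrix.mul_one]
            _ = _ := by simp only [Matrix.mul_assoc]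
      _ = (Q⁻¹ * Q) * diagonal (fun i => c (deg i)) * (Q⁻¹ * T * Q) := by
          rw [h]; simp only [Matrix.mul_assoc]
      _ = _ := by rw [Matrix.nonsing_inv_mul _ hQ, Matrix.one_mul]
  intro i k hik
  have h2 := congrFun (congrFun h1 i) k
  rw [Matrix.mul_diagonal, Matrix.diagonal_mul] at h2
  have h3 : (Q⁻¹ * T * Q) i k * (c (deg k) - c (deg i)) = 0 := by
    rw [mul_sub, h2]; ring
  rcases mul_eq_zero.mp h3 with h4 | h4
  · exact h4
  · exact absurd (hc (sub_eq_zero.mp h4)) (Ne.symm hik)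

namespace PolFrame

variable {w : ℤ} {Ψ Q : Matrix J J ℂ} {deg : J → ℤ} (F : PolFrame w Ψ Q deg)
include F

/-- The Weil operator is an isometry. -/
theorem weil_isom : (weil w Q deg)ᵀ * Ψ * weil w Q deg = Ψ := by
  have hQ := F.unit
  set c : Matrix J J ℂ := diagonal (fun i => Complex.I ^ (w - 2 * deg i)) with hc
  have h1 : c * (Qᵀ * Ψ * Q) * c = Qᵀ * Ψ * Q := by
    ext i k
    rw [hc, Matrix.mul_diagonal, Matrix.diagonal_mul]
    by_cases h2 : deg i = w - deg k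
    · have h3 : Complex.I ^ (w - 2 * deg i) * Complex.I ^ (w - 2 * deg k) = 1 := by
        rw [← zpow_add₀ Complex.I_ne_zero, h2]
        rw [show w - 2 * (w - deg k) + (w - 2 * deg k) = 0 by ring, zpow_zero]
      calc _ = (Qᵀ * Ψ * Q) i k * (Complex.I ^ (w - 2 * deg i) * Complex.I ^ (w - 2 * deg k)) := by
            ring
        _ = _ := by rw [h3, mul_one]
    · rw [F.homo_form i k h2, mul_zero, zero_mul]
  have hT : (Q⁻¹)ᵀ * Qᵀ = 1 := by
    rw [← Matrix.transpose_mul, Matrix.mul_nonsing_inv _ hQ, Matrix.transpose_one]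
  calc (weil w Q deg)ᵀ * Ψ * weil w Q deg = (Q⁻¹)ᵀ * (c * (Qᵀ * Ψ * Q) * c) * Q⁻¹ := by
        rw [weil, ← hc, Matrix.transpose_mul, Matrix.transpose_mul]
        rw [show cᵀ = c by rw [hc, Matrix.diagonal_transpose]]
        simp only [Matrix.mul_assoc]
    _ = ((Q⁻¹)ᵀ * Qᵀ) * Ψ * (Q * Q⁻¹) := by
        rw [h1]; simp only [Matrix.mul_assoc]
    _ = Ψ := by rw [hT, Matrix.mul_nonsing_inv _ hQ, Matrix.one_mul, Matrix.mul_one]

/-- The Hermitian form. -/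
theorem posM : (Ψᵀ * weilInv w Q deg).PosDef := by
  have hQ := F.unit
  have h1 : Ψᵀ * weilInv w Q deg = (Q⁻¹)ᴴ *
      ((diagonal fun i => Complex.I ^ (2 * deg i - w)) * (Qᵀ * Ψ * cj Q))ᵀ * Q⁻¹ := by
    have h2 : (cj Q)ᵀ = Qᴴ := rfl
    have h3 : (Q⁻¹)ᴴ * Qᴴ = 1 := by
      rw [← Matrix.conjTranspose_mul, Matrix.mul_nonsing_inv _ hQ, Matrix.conjTranspose_one]
    rw [Matrix.transpose_mul, Matrix.transpose_mul, Matrix.transpose_mul, Matrix.transpose_transpose,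
      Matrix.diagonal_transpose, h2, weilInv]
    calc Ψᵀ * (Q * (diagonal fun i => Complex.I ^ (2 * deg i - w)) * Q⁻¹)
        = ((Q⁻¹)ᴴ * Qᴴ) * (Ψᵀ * (Q * (diagonal fun i => Complex.I ^ (2 * deg i - w)) * Q⁻¹)) := by
          rw [h3, Matrix.one_mul]
      _ = _ := by simp only [Matrix.mul_assoc]
  rw [h1]
  refine F.pos.conjTranspose_mul_mul_same ?_
  apply Matrix.mulVec_injective_of_isUnit
  rw [Matrix.isUnit_iff_isUnit_det]
  exact Matrix.isUnit_nonsing_inv_det _ hQ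

/-- The adjoint of a real operator commuting with the Weil operator. -/
theorem adj_eq {T : Matrix J J ℂ} (hT : cj T = T) (h : Homo deg deg (Q⁻¹ * T * Q)) :
    (Ψᵀ)⁻¹ * Tᵀ * Ψᵀ =
      (Ψᵀ * weilInv w Q deg)⁻¹ * Tᴴ * (Ψᵀ * weilInv w Q deg) := by
  have hQ := F.unit
  have hΨ : IsUnit (Ψᵀ).det := by rw [Matrix.det_transpose]; exact F.unitΨ
  set C := weil w Q deg with hC
  set C' := weilInv w Q deg with hC'
  have e1 : C * C' = 1 := weil_mul_inv w Q deg hQ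
  have e2 : C' * C = 1 := weilInv_mul w Q deg hQ
  have hTT : Tᴴ = Tᵀ := by
    rw [Matrix.conjTranspose]
    exact congrArg Matrix.transpose hT
  have comm : T * C' = C' * T := comm_diag hQ h (fun n => Complex.I ^ (2 * n - w))
  have commT : C'ᵀ * Tᵀ = Tᵀ * C'ᵀ := by
    rw [← Matrix.transpose_mul, ← Matrix.transpose_mul, comm]
  have iso : Cᵀ * Ψᵀ * C = Ψᵀ := by
    have := congrArg Matrix.transpose F.weil_isom
    rw [Matrix.transpose_mul, Matrix.transpose_mul, Matrix.transpose_transpose] at this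
    rw [Matrix.mul_assoc]
    exact this
  -- `Ψᵀ C = C'ᵀ Ψᵀ`
  have iso2 : Ψᵀ * C = C'ᵀ * Ψᵀ := by
    have e3 : C'ᵀ * Cᵀ = 1 := by rw [← Matrix.transpose_mul, e1, Matrix.transpose_one]
    calc Ψᵀ * C = (C'ᵀ * Cᵀ) * (Ψᵀ * C) := by rw [e3, Matrix.one_mul]
      _ = C'ᵀ * (Cᵀ * Ψᵀ * C) := by simp only [Matrix.mul_assoc]
      _ = _ := by rw [iso]
  have iso3 : C' * (Ψᵀ)⁻¹ = (Ψᵀ)⁻¹ * Cᵀ := by
    have e4 : Cᵀ * Ψᵀ = Ψᵀ * C' := by
      calc Cᵀ * Ψᵀ = Cᵀ * Ψᵀ * (C * C') := by rw [e1, Matrix.mul_one]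
        _ = (Cᵀ * Ψᵀ * C) * C' := by simp only [Matrix.mul_assoc]
        _ = _ := by rw [iso]
    calc C' * (Ψᵀ)⁻¹ = ((Ψᵀ)⁻¹ * Ψᵀ) * C' * (Ψᵀ)⁻¹ := by
          rw [Matrix.nonsing_inv_mul _ hΨ, Matrix.one_mul]
      _ = (Ψᵀ)⁻¹ * (Ψᵀ * C') * (Ψᵀ)⁻¹ := by simp only [Matrix.mul_assoc]
      _ = (Ψᵀ)⁻¹ * Cᵀ * (Ψᵀ * (Ψᵀ)⁻¹) := by rw [← e4]; simp only [Matrix.mul_assoc]
      _ = _ := by rw [Matrix.mul_nonsing_inv _ hΨ, Matrix.mul_one]
  have hinv : (Ψᵀ * C')⁻¹ = C * (Ψᵀ)⁻¹ := by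
    apply Matrix.inv_eq_left_inv
    calc C * (Ψᵀ)⁻¹ * (Ψᵀ * C') = C * ((Ψᵀ)⁻¹ * Ψᵀ) * C' := by simp only [Matrix.mul_assoc]
      _ = 1 := by rw [Matrix.nonsing_inv_mul _ hΨ, Matrix.mul_one, e1]
  -- `C (Ψᵀ)⁻¹ = (Ψᵀ)⁻¹ C'ᵀ`
  have iso4 : C * (Ψᵀ)⁻¹ = (Ψᵀ)⁻¹ * C'ᵀ := by
    calc C * (Ψᵀ)⁻¹ = (Ψᵀ)⁻¹ * (Ψᵀ * C) * (Ψᵀ)⁻¹ := by
          rw [← Matrix.mul_assoc (Ψᵀ)⁻¹, Matrix.nonsing_inv_mul _ hΨ, Matrix.one_mul]
      _ = (Ψᵀ)⁻¹ * C'ᵀ * (Ψᵀ * (Ψᵀ)⁻¹) := by rw [iso2]; simp only [Matrix.mul_assoc]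
      _ = _ := by rw [Matrix.mul_nonsing_inv _ hΨ, Matrix.mul_one]
  rw [hinv, hTT, iso4]
  calc (Ψᵀ)⁻¹ * Tᵀ * Ψᵀ = (Ψᵀ)⁻¹ * Tᵀ * Ψᵀ * (C * C') := by rw [e1, Matrix.mul_one]
    _ = (Ψᵀ)⁻¹ * Tᵀ * (Ψᵀ * C) * C' := by simp only [Matrix.mul_assoc]
    _ = (Ψᵀ)⁻¹ * (Tᵀ * C'ᵀ) * Ψᵀ * C' := by rw [iso2]; simp only [Matrix.mul_assoc]
    _ = _ := by rw [← commT]; simp only [Matrix.mul_assoc]

end PolFrame

end Pool.Agent.Helper79.HH
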