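import Pool.Agent.Helper79.HH.Tang

/-!
# HH: rational structures on spaces of matrices
-/

namespace Pool.Agent.Helper79.HH

open Matrix
open scoped Kronecker

/-- A basis of `ℂ` over `ℚ`. -/
noncomputable abbrev bq := Module.Basis.ofVectorSpace ℚ ℂ

/-- The coordinates of a complex matrix in a basis of `ℂ` over `ℚ`. -/
noncomputable def comp {K L : Type} (k : Module.Basis.ofVectorSpaceIndex ℚ ℂ) (Z : Matrix K L ℂ) :
    Matrix K L ℚ := Z.map fun z => bq.repr z k

theorem repr_mul_left (r : ℚ) (z : ℂ) (k) : bq.repr ((r : ℂ) * z) k = r * bq.repr z k := by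
  have : (r : ℂ) * z = r • z := by rw [Rat.smul_def]
  rw [this, map_smul, Finsupp.smul_apply, smul_eq_mul]

section

variable {K L M : Type}

theorem comp_add (k) (Y Z : Matrix K L ℂ) : comp k (Y + Z) = comp k Y + comp k Z := by
  ext a b; simp [comp]

theorem comp_sub (k) (Y Z : Matrix K L ℂ) : comp k (Y - Z) = comp k Y - comp k Z := by
  ext a b; simp [comp]

theorem comp_zero (k) : comp k (0 : Matrix K L ℂ) = 0 := by
  ext a b; simp [comp]

theorem comp_mul_left [Fintype L] (k) (Y : Matrix K L ℚ) (Z : Matrix L M ℂ) :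
    comp k (qc Y * Z) = Y * comp k Z := by
  ext a b
  simp only [comp, Matrix.map_apply, Matrix.mul_apply, map_sum, Finsupp.coe_finsetSum,
    Finset.sum_apply, repr_mul_left]

theorem comp_mul_right [Fintype L] (k) (Y : Matrix L M ℚ) (Z : Matrix K L ℂ) :
    comp k (Z * qc Y) = comp k Z * Y := by
  ext a b
  simp only [comp, Matrix.map_apply, Matrix.mul_apply, map_sum, Finsupp.coe_finsetSum,
    Finset.sum_apply]
  refine Finset.sum_congr rfl fun l _ => ?_
  rw [mul_comm (Z a l), repr_mul_left, mul_comm]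

theorem comp_transpose (k) (Z : Matrix K L ℂ) : comp k Zᵀ = (comp k Z)ᵀ := rfl

theorem comp_smul (k) (c : ℂ) (Y : Matrix K L ℚ) : comp k (c • qc Y) = (bq.repr c k) • Y := by
  ext a b
  simp only [comp, Matrix.map_apply, Matrix.smul_apply, smul_eq_mul]
  rw [mul_comm, repr_mul_left, mul_comm]

theorem eq_sum_comp [Fintype K] [Fintype L] (Z : Matrix K L ℂ) :
    ∃ s : Finset (Module.Basis.ofVectorSpaceIndex ℚ ℂ), Z = ∑ k ∈ s, (bq k : ℂ) • qc (comp k Z) := by
  classical
  refine ⟨Finset.univ.biUnion fun a => Finset.univ.biUnion fun b => (bq.repr (Z a b)).support, ?_⟩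
  ext a b
  rw [Matrix.sum_apply]
  conv_lhs => rw [← bq.linearCombination_repr (Z a b), Finsupp.linearCombination_apply, Finsupp.sum]
  have hsub : (bq.repr (Z a b)).support ⊆
      Finset.univ.biUnion fun a => Finset.univ.biUnion fun b => (bq.repr (Z a b)).support :=
    fun k hk => Finset.mem_biUnion.mpr ⟨a, Finset.mem_univ _, Finset.mem_biUnion.mpr
      ⟨b, Finset.mem_univ _, hk⟩⟩
  rw [Finset.sum_subset hsub fun k _ hk => by rw [Finsupp.notMem_support_iff.mp hk, zero_smul]]
  refine Finset.sum_congr rfl fun k _ => ?_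
  rw [Matrix.smul_apply, smul_eq_mul, Rat.smul_def, mul_comm]
  rfl

theorem qc_mem {g : Submodule ℚ (Matrix K L ℚ)} {Z : Matrix K L ℚ} (h : Z ∈ g) : qc Z ∈ cx g :=
  Submodule.subset_span ⟨Z, h, rfl⟩

theorem comp_mem {g : Submodule ℚ (Matrix K L ℚ)} {Z : Matrix K L ℂ} (h : Z ∈ cx g) (k) :
    comp k Z ∈ g := by
  have key : ∀ c : ℂ, comp k (c • Z) ∈ g := by
    refine Submodule.span_induction (p := fun Z _ => ∀ c : ℂ, comp k (c • Z) ∈ g) ?_ ?_ ?_ ?_ h
    · rintro _ ⟨Y, hY, rfl⟩ c
      rw [comp_smul]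
      exact g.smul_mem _ hY
    · intro c
      rw [smul_zero, comp_zero]
      exact g.zero_mem
    · intro Y Z _ _ hY hZ c
      rw [smul_add, comp_add]
      exact g.add_mem (hY c) (hZ c)
    · intro a Z _ hZ c
      rw [smul_smul]
      exact hZ _
  simpa using key 1

theorem mem_of_comp [Fintype K] [Fintype L] {g : Submodule ℚ (Matrix K L ℚ)} {Z : Matrix K L ℂ}
    (h : ∀ k, comp k Z ∈ g) : Z ∈ cx g := by
  obtain ⟨s, hs⟩ := eq_sum_comp Z
  rw [hs]
  exact Submodule.sum_mem _ fun k _ => Submodule.smul_mem _ _ (qc_mem (h k))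

theorem cj_mem {g : Submodule ℚ (Matrix K L ℚ)} {Z : Matrix K L ℂ} (h : Z ∈ cx g) : cj Z ∈ cx g := by
  refine Submodule.span_induction (p := fun Z _ => cj Z ∈ cx g) ?_ ?_ ?_ ?_ h
  · rintro _ ⟨Y, hY, rfl⟩
    have : cj (Y.map (Rat.cast : ℚ → ℂ)) = qc Y := by
      ext a b; simp [cj, qc]
    rw [this]
    exact qc_mem hY
  · have : cj (0 : Matrix K L ℂ) = 0 := by ext a b; simp [cj]
    rw [this]; exact Submodule.zero_mem _
  · intro Y Z _ _ hY hZ
    have : cj (Y + Z) = cj Y + cj Z := by ext a b; simp [cj]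
    rw [this]; exact Submodule.add_mem _ hY hZ
  · intro c Z _ hZ
    have : cj (c • Z) = starRingEnd ℂ c • cj Z := by ext a b; simp [cj]
    rw [this]; exact Submodule.smul_mem _ _ hZ

end

/-- The action of a matrix on matrices. -/
def act {R ι : Type} [CommRing R] [Fintype ι] (T : Matrix (ι × ι) (ι × ι) R) (X : Matrix ι ι R) :
    Matrix ι ι R := Matrix.of fun a b => ∑ p, T (a, b) p * X p.1 p.2

section

variable {R ι : Type} [CommRing R] [Fintype ι]

theorem act_kron (A B X : Matrix ι ι R) : act (A ⊗ₖ Bᵀ) X = A * X * B := by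
  ext a b
  rw [act, Matrix.of_apply, Matrix.mul_apply, Fintype.sum_prod_type, Finset.sum_comm]
  refine Finset.sum_congr rfl fun y _ => ?_
  rw [Matrix.mul_apply, Finset.sum_mul]
  refine Finset.sum_congr rfl fun x _ => ?_
  rw [kroneckerMap_apply, Matrix.transpose_apply]
  ring

theorem act_mul (S T : Matrix (ι × ι) (ι × ι) R) (X : Matrix ι ι R) : act (S * T) X = act S (act T X) := by
  ext a b
  simp only [act, Matrix.of_apply, Matrix.mul_apply, Finset.sum_mul, Finset.mul_sum]
  rw [Finset.sum_comm]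
  refine Finset.sum_congr rfl fun p _ => Finset.sum_congr rfl fun q _ => ?_
  rw [mul_assoc]

theorem act_add (T : Matrix (ι × ι) (ι × ι) R) (X Y : Matrix ι ι R) : act T (X + Y) = act T X + act T Y := by
  ext a b
  simp only [act, Matrix.of_apply, Matrix.add_apply, mul_add, Finset.sum_add_distrib]

theorem act_smul (T : Matrix (ι × ι) (ι × ι) R) (c : R) (X : Matrix ι ι R) :
    act T (c • X) = c • act T X := by
  ext a b
  simp only [act, Matrix.of_apply, Matrix.smul_apply, smul_eq_mul, Finset.mul_sum]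
  exact Finset.sum_congr rfl fun p _ => by ring

theorem act_zero (T : Matrix (ι × ι) (ι × ι) R) : act T (0 : Matrix ι ι R) = 0 := by
  ext a b
  simp [act]

theorem act_sum {α : Type} (s : Finset α) (T : Matrix (ι × ι) (ι × ι) R) (f : α → Matrix ι ι R) :
    act T (∑ i ∈ s, f i) = ∑ i ∈ s, act T (f i) := by
  classical
  induction s using Finset.induction_on with
  | empty => rw [Finset.sum_empty, Finset.sum_empty, act_zero]
  | insert a s ha ih => rw [Finset.sum_insert ha, Finset.sum_insert ha, act_add, ih]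

theorem act_sub_left (S T : Matrix (ι × ι) (ι × ι) R) (X : Matrix ι ι R) :
    act (S - T) X = act S X - act T X := by
  ext a b
  simp only [act, Matrix.of_apply, Matrix.sub_apply, sub_mul, Finset.sum_sub_distrib]

theorem act_ext [DecidableEq ι] {S T : Matrix (ι × ι) (ι × ι) R} (h : ∀ X, act S X = act T X) : S = T := by
  ext ⟨a, b⟩ ⟨c, d⟩
  have h1 := congrFun (congrFun (h (Matrix.single c d 1)) a) b
  simp only [act, Matrix.of_apply] at h1
  have h2 : ∀ U : Matrix (ι × ι) (ι × ι) R,
      ∑ p, U (a, b) p * (Matrix.single c d (1 : R)) p.1 p.2 = U (a, b) (c, d) := by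
    intro U
    rw [Finset.sum_eq_single (c, d)]
    · simp
    · rintro ⟨x, y⟩ _ hne
      rw [Matrix.single_apply_of_ne, mul_zero]
      rintro ⟨h3, h4⟩
      exact hne (by rw [h3, h4])
    · intro h3; exact absurd (Finset.mem_univ _) h3
  rwa [h2, h2] at h1

theorem act_qc (T : Matrix (ι × ι) (ι × ι) ℚ) (X : Matrix ι ι ℚ) : act (qc T) (qc X) = qc (act T X) := by
  ext a b
  simp [act, qc]

theorem act_adM [DecidableEq ι] (D X : Matrix ι ι ℂ) : act (adM D) X = D * X - X * D := by
  rw [adM, act_sub_left]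
  have h1 : act (D ⊗ₖ (1 : Matrix ι ι ℂ)) X = D * X := by
    have := act_kron D (1 : Matrix ι ι ℂ) X
    rwa [Matrix.transpose_one, Matrix.mul_one] at this
  rw [h1, act_kron, Matrix.one_mul]

end

end Pool.Agent.Helper79.HH
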