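import Pool.Agent.Helper79.HH.Cont
import Pool.Agent.Helper79.HH.LieMain

/-!
# HH: Hodge operators give relations of bounded degree between the periods
-/

namespace Pool.Agent.Helper79.HH

open Matrix Pool.Agent.Helper79.BB Pool.Agent.Helper64.Per
open scoped Kronecker

variable {ι : Type} [Fintype ι] [DecidableEq ι]

/-- The polynomials which are the entries of `det(M)^2 adm(M) T adm(M)⁻¹`. -/
noncomputable def relMat (K : Type) [Field K] [CharZero K] (T : Matrix (ι × ι) (ι × ι) ℚ) :
    Matrix (ι × ι) (ι × ι) (MvPolynomial (ι × ι) K) :=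
  (gen K ⊗ₖ (gen K).adjugateᵀ) * T.map (fun c => MvPolynomial.C (c : K)) *
    ((gen K).adjugate ⊗ₖ (gen K)ᵀ)

theorem totalDegree_gen (K : Type) [Field K] (a b : ι) : (gen K a b).totalDegree ≤ 1 := by
  rw [gen, Matrix.of_apply]
  exact MvPolynomial.totalDegree_X (R := K) (a, b) |>.le

theorem totalDegree_det {K : Type} [Field K] (M : Matrix ι ι (MvPolynomial (ι × ι) K))
    (h : ∀ a b, (M a b).totalDegree ≤ 1) : M.det.totalDegree ≤ Fintype.card ι := by
  rw [Matrix.det_apply]
  refine MvPolynomial.totalDegree_finsetSum_le fun σ _ => ?_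
  refine (MvPolynomial.totalDegree_smul_le _ _).trans ?_
  refine (MvPolynomial.totalDegree_finset_prod _ _).trans ?_
  calc ∑ i, (M (σ i) i).totalDegree ≤ ∑ _i : ι, 1 := Finset.sum_le_sum fun i _ => h _ _
    _ = Fintype.card ι := by simp

theorem totalDegree_adj (K : Type) [Field K] (a b : ι) :
    ((gen K).adjugate a b).totalDegree ≤ Fintype.card ι := by
  rw [Matrix.adjugate_apply]
  refine totalDegree_det _ fun c d => ?_
  rw [Matrix.updateRow_apply]
  split_ifs
  · rw [Pi.single_apply]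
    split_ifs
    · rw [MvPolynomial.totalDegree_one]; exact Nat.zero_le _
    · rw [MvPolynomial.totalDegree_zero]; exact Nat.zero_le _
  · exact totalDegree_gen K c d

theorem totalDegree_relMat (K : Type) [Field K] [CharZero K] (T : Matrix (ι × ι) (ι × ι) ℚ)
    (p q : ι × ι) : (relMat K T p q).totalDegree ≤ 2 * Fintype.card ι + 2 := by
  rw [relMat, Matrix.mul_apply]
  refine MvPolynomial.totalDegree_finsetSum_le fun b _ => ?_
  refine (MvPolynomial.totalDegree_mul _ _).trans ?_
  have h1 : ((((gen K ⊗ₖ (gen K).adjugateᵀ) * T.map (fun c => MvPolynomial.C (c : K))) : Matrix _ _ _)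
      p b).totalDegree ≤ Fintype.card ι + 1 := by
    rw [Matrix.mul_apply]
    refine MvPolynomial.totalDegree_finsetSum_le fun a _ => ?_
    refine (MvPolynomial.totalDegree_mul _ _).trans ?_
    rw [Matrix.map_apply, MvPolynomial.totalDegree_C, add_zero, kroneckerMap_apply,
      Matrix.transpose_apply]
    refine (MvPolynomial.totalDegree_mul _ _).trans ?_
    have := totalDegree_gen K p.1 a.1
    have := totalDegree_adj K a.2 p.2
    omega
  have h2 : (((gen K).adjugate ⊗ₖ (gen K)ᵀ) b q).totalDegree ≤ Fintype.card ι + 1 := by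
    rw [kroneckerMap_apply, Matrix.transpose_apply]
    refine (MvPolynomial.totalDegree_mul _ _).trans ?_
    have := totalDegree_gen K q.2 b.2
    have := totalDegree_adj K b.1 q.1
    omega
  omega

theorem eval_relMat (K : Type) [Field K] [CharZero K] [Algebra K ℂ] (T : Matrix (ι × ι) (ι × ι) ℚ)
    (M : Matrix ι ι ℂ) (p q : ι × ι) :
    MvPolynomial.aeval (fun e => M e.1 e.2) (relMat K T p q) =
      ((M ⊗ₖ M.adjugateᵀ) * qc T * (M.adjugate ⊗ₖ Mᵀ)) p q := by
  set f : MvPolynomial (ι × ι) K →ₐ[K] ℂ := MvPolynomial.aeval (fun e => M e.1 e.2) with hf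
  have h1 : (gen K).map f = M := by
    ext a b
    rw [Matrix.map_apply, gen, Matrix.of_apply, hf, MvPolynomial.aeval_X]
  have h2 : (gen K).adjugate.map f = M.adjugate := by
    rw [← h1]
    exact (RingHom.map_adjugate (f : MvPolynomial (ι × ι) K →+* ℂ) (gen K))
  have h3 : (T.map (fun c => MvPolynomial.C (c : K)) :
      Matrix (ι × ι) (ι × ι) (MvPolynomial (ι × ι) K)).map f = qc T := by
    ext a b
    rw [Matrix.map_apply, Matrix.map_apply, hf, MvPolynomial.aeval_C, map_ratCast]
    rfl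
  have h4 : (gen K ⊗ₖ (gen K).adjugateᵀ).map f = M ⊗ₖ M.adjugateᵀ := by
    ext a b
    rw [Matrix.map_apply, kroneckerMap_apply, kroneckerMap_apply, map_mul, Matrix.transpose_apply,
      Matrix.transpose_apply, ← h2, Matrix.map_apply]
    congr 1
    rw [← h1, Matrix.map_apply]
  have h5 : ((gen K).adjugate ⊗ₖ (gen K)ᵀ).map f = M.adjugate ⊗ₖ Mᵀ := by
    ext a b
    rw [Matrix.map_apply, kroneckerMap_apply, kroneckerMap_apply, map_mul, Matrix.transpose_apply,
      Matrix.transpose_apply, ← h2, Matrix.map_apply]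
    congr 1
    rw [← h1, Matrix.map_apply]
  have h6 : (relMat K T).map f = (M ⊗ₖ M.adjugateᵀ) * qc T * (M.adjugate ⊗ₖ Mᵀ) := by
    rw [relMat, Matrix.map_mul, Matrix.map_mul, h3, h4, h5]
  rw [← h6, Matrix.map_apply]

theorem adj_form {M : Matrix ι ι ℂ} (hM : IsUnit M.det) (T : Matrix (ι × ι) (ι × ι) ℂ) :
    (M ⊗ₖ M.adjugateᵀ) * T * (M.adjugate ⊗ₖ Mᵀ) =
      (M.det * M.det) • (adm M * T * (adm M)⁻¹) := by
  have h1 : M.adjugate = M.det • M⁻¹ := by
    rw [Matrix.inv_def, smul_smul, Ring.mul_inverse_cancel _ hM, one_smul]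
  rw [adm_inv hM, adm, adm, Matrix.nonsing_inv_nonsing_inv _ hM, h1, Matrix.transpose_smul,
    kronecker_smul, smul_kronecker, Matrix.smul_mul, Matrix.mul_smul, Matrix.smul_mul, smul_smul]

/-- The levels of the rows of `adm M`. -/
theorem low_of_aeval {lev : ι → ℤ} {T : Matrix (ι × ι) (ι × ι) ℚ} {M : Matrix ι ι ℂ}
    (hM : IsUnit M.det) (K : Type) [Field K] [CharZero K] [Algebra K ℂ] :
    Low (dd lev) (dd lev) (adm M * qc T * (adm M)⁻¹) ↔
      ∀ p q, dd lev q < dd lev p → MvPolynomial.aeval (fun e => M e.1 e.2) (relMat K T p q) = 0 := by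
  have hd : M.det * M.det ≠ 0 := mul_ne_zero hM.ne_zero hM.ne_zero
  constructor
  · intro h p q hpq
    rw [eval_relMat, adj_form hM, Matrix.smul_apply, h p q hpq, smul_zero]
  · intro h p q hpq
    have h1 := h p q hpq
    rw [eval_relMat, adj_form hM, Matrix.smul_apply, smul_eq_zero] at h1
    exact h1.resolve_left hd

theorem low_of_noRel {m : ℕ} {U : Set (Fin m → ℂ)} {w : (Fin m → ℂ) → ℂ}
    {P : (Fin m → ℂ) → Matrix ι ι ℂ} {s : Fin m → ℂ} {κ : IntermediateField ℚ Qbar}
    (h : ¬ HasRelationM U w P s κ (2 * Fintype.card ι + 2)) (hdet : IsUnit (P s).det)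
    {lev : ι → ℤ} {T : Matrix (ι × ι) (ι × ι) ℚ}
    (hT : Low (dd lev) (dd lev) (adm (P s) * qc T * (adm (P s))⁻¹)) {M : Matrix ι ι ℂ}
    (hM : M ∈ BFibreM U w P s) : Low (dd lev) (dd lev) (adm M * qc T * (adm M)⁻¹) := by
  set K := kapM κ s (w s) with hK
  rw [low_of_aeval hM.1 K]
  rw [low_of_aeval hdet K] at hT
  intro p q hpq
  by_contra hne
  apply h
  refine ⟨relMat K T p q, totalDegree_relMat K T p q, ?_, ?_⟩
  · intro N hN
    have h1 := hN.2 (MvPolynomial.map (algebraMap K Qbar) (relMat K T p q)) (by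
      rw [MvPolynomial.aeval_map_algebraMap]
      exact hT p q hpq)
    rw [MvPolynomial.aeval_map_algebraMap] at h1
    exact h1
  · intro h2
    exact hne (h2 M hM)

end Pool.Agent.Helper79.HH
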