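import Pool.Agent.Helper79.BB.StatM
import Pool.Agent.Helper79.HH.Stat

/-!
# HH: monodromy of period matrices and generic Mumford-Tate groups: definitions
-/

namespace Pool.Agent.Helper79.HH

open Matrix

variable {m : ℕ} {ι : Type}

/-- A function element: a set in `ℂ^m`, a function and a matrix-valued function. -/
structure Element (m : ℕ) (ι : Type) where
  /-- the set -/
  U : Set (Fin m → ℂ)
  /-- the function -/
  w : (Fin m → ℂ) → ℂ
  /-- the matrix-valued function -/
  P : (Fin m → ℂ) → Matrix ι ι ℂ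

/-- The set is open and connected, and the functions are analytic on it. -/
def Element.IsAnalytic (a : Element m ι) : Prop :=
  IsOpen a.U ∧ IsPreconnected a.U ∧ AnalyticOnNhd ℂ a.w a.U ∧
    ∀ i k, AnalyticOnNhd ℂ (fun t => a.P t i k) a.U

/-- The function element `b` is an immediate analytic continuation of `a`: the functions are equal on a
nonempty open set. -/
def Element.Next (a b : Element m ι) : Prop :=
  a.IsAnalytic ∧ b.IsAnalytic ∧ ∃ O : Set (Fin m → ℂ), IsOpen O ∧ O.Nonempty ∧ O ⊆ a.U ∧ O ⊆ b.U ∧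
    ∀ t ∈ O, a.w t = b.w t ∧ a.P t = b.P t

variable [Fintype ι]

/-- The monodromy group of the period matrix `P` on `U` along the branch `t ↦ (t, w t)`: the integral isometries
`g` of `ψ` such that a chain of immediate analytic continuations leads from `(w, P)` on `U` back to
`(w, P g)` on `U`. -/
def Mono (ψ : Matrix ι ι ℚ) (U : Set (Fin m → ℂ)) (w : (Fin m → ℂ) → ℂ)
    (P : (Fin m → ℂ) → Matrix ι ι ℂ) : Set (Matrix ι ι ℂ) :=
  {g | (∃ γ : Matrix ι ι ℤ, g = γ.map (Int.cast : ℤ → ℂ)) ∧
    gᵀ * ψ.map (Rat.cast : ℚ → ℂ) * g = ψ.map (Rat.cast : ℚ → ℂ) ∧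
    Relation.ReflTransGen Element.Next ⟨U, w, P⟩ ⟨U, w, fun t => P t * g⟩}

/-- The Lie algebra over `ℚ` of the Mumford-Tate group, the smallest Lie algebra `g` of rational matrices whose
complexification contains the Hodge operator of the Hodge structure given by the period matrix `P`, contains
over `ℂ` all commutators of elements of `h`. -/
def MTContains (lev : ι → ℤ) (j : ℤ) (P : Matrix ι ι ℂ) (h : Set (Matrix ι ι ℂ)) : Prop :=
  ∀ g : Submodule ℚ (Matrix ι ι ℚ), (∀ X ∈ g, ∀ Y ∈ g, X * Y - Y * X ∈ g) →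
    (∀ D, IsHodgeOp lev j P D → D ∈ cx g) → ∀ X ∈ h, ∀ Y ∈ h, X * Y - Y * X ∈ cx g

end Pool.Agent.Helper79.HH
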