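import Pool.Agent.Helper79.HH.Exist

/-!
# HH: tangent vectors of a set of isometries fix Hodge operators with finite orbits
-/

namespace Pool.Agent.Helper79.HH

open Matrix
open scoped Kronecker

variable {ι : Type} [Fintype ι] [DecidableEq ι]

/-- The generic matrix. -/
noncomputable def gen (K : Type) [CommRing K] : Matrix ι ι (MvPolynomial (ι × ι) K) :=
  Matrix.of fun a b => MvPolynomial.X (a, b)

omit [Fintype ι] [DecidableEq ι] in
theorem aeval_gen {A : Type} [CommRing A] [Algebra ℂ A] (g : Matrix ι ι A) :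
    (gen ℂ).map (MvPolynomial.aeval (R := ℂ) fun e : ι × ι => g e.1 e.2) = g := by
  ext a b
  rw [Matrix.map_apply, gen, Matrix.of_apply, MvPolynomial.aeval_X]

omit [Fintype ι] [DecidableEq ι] in
theorem map_C {A : Type} [CommRing A] [Algebra ℂ A] {K L : Type} (g : ι × ι → A) (T : Matrix K L ℂ) :
    (T.map (MvPolynomial.C (σ := ι × ι))).map (MvPolynomial.aeval (R := ℂ) g) =
      T.map (algebraMap ℂ A) := by
  ext a b
  rw [Matrix.map_apply, Matrix.map_apply, Matrix.map_apply, MvPolynomial.aeval_C]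

omit [Fintype ι] in
/-- Equations which hold for all elements of `S` up to a finite number of possibilities hold infinitesimally. -/
theorem tangent_of_finite {S : Set (Matrix ι ι ℂ)} {X : Matrix ι ι ℂ} (hX : X ∈ tangent S)
    (q₀ : MvPolynomial (ι × ι) ℂ) (s : Finset (MvPolynomial (ι × ι) ℂ))
    (h : ∀ g ∈ S, MvPolynomial.aeval (fun e => g e.1 e.2) q₀ = 0 ∨
      ∃ q ∈ s, MvPolynomial.aeval (fun e => g e.1 e.2) q = 0)
    (h1 : ∀ q ∈ s, TrivSqZeroExt.fst (MvPolynomial.aeval (fun e => onePlus X e.1 e.2) q) ≠ 0) :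
    MvPolynomial.aeval (fun e => onePlus X e.1 e.2) q₀ = 0 := by
  have h2 := hX (q₀ * ∏ q ∈ s, q) (fun g hg => by
    rw [map_mul, map_prod]
    rcases h g hg with h3 | ⟨q, hq, h3⟩
    · rw [h3, zero_mul]
    · rw [Finset.prod_eq_zero hq h3, mul_zero])
  rw [map_mul, map_prod] at h2
  have h4 : IsUnit (∏ q ∈ s, MvPolynomial.aeval (fun e => onePlus X e.1 e.2) q) := by
    rw [TrivSqZeroExt.isUnit_iff_isUnit_fst, ← TrivSqZeroExt.fstHom_apply ℂ ℂ ℂ, map_prod,
      isUnit_iff_ne_zero, Finset.prod_ne_zero_iff]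
    exact fun q hq => h1 q hq
  exact (h4.mul_left_eq_zero).mp h2

/-! ### First components and second components of matrices over the dual numbers -/

section Dual

variable {J K L : Type} [Fintype K]

/-- The first components. -/
noncomputable def fs {J K : Type} (M : Matrix J K (DualNumber ℂ)) : Matrix J K ℂ := M.map TrivSqZeroExt.fst

/-- The second components. -/
noncomputable def sn {J K : Type} (M : Matrix J K (DualNumber ℂ)) : Matrix J K ℂ := M.map TrivSqZeroExt.snd

theorem fs_mul (M : Matrix J K (DualNumber ℂ)) (N : Matrix K L (DualNumber ℂ)) :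
    fs (M * N) = fs M * fs N := by
  ext a b
  simp only [fs, Matrix.map_apply, Matrix.mul_apply]
  rw [← TrivSqZeroExt.fstHom_apply ℂ ℂ ℂ, map_sum]
  exact Finset.sum_congr rfl fun k _ => by
    rw [map_mul, TrivSqZeroExt.fstHom_apply, TrivSqZeroExt.fstHom_apply]

theorem sn_mul (M : Matrix J K (DualNumber ℂ)) (N : Matrix K L (DualNumber ℂ)) :
    sn (M * N) = fs M * sn N + sn M * fs N := by
  ext a b
  simp only [sn, fs, Matrix.map_apply, Matrix.mul_apply, Matrix.add_apply]
  rw [← TrivSqZeroExt.sndHom_apply ℂ ℂ, map_sum, ← Finset.sum_add_distrib]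
  refine Finset.sum_congr rfl fun k _ => ?_
  rw [TrivSqZeroExt.sndHom_apply, TrivSqZeroExt.snd_mul, smul_eq_mul, op_smul_eq_smul,
    smul_eq_mul]
  ring

omit [Fintype K] in
theorem fs_sub (M N : Matrix J K (DualNumber ℂ)) : fs (M - N) = fs M - fs N := by
  ext a b; simp [fs]

omit [Fintype K] in
theorem sn_sub (M N : Matrix J K (DualNumber ℂ)) : sn (M - N) = sn M - sn N := by
  ext a b; simp [sn]

omit [Fintype K] in
theorem fs_transpose (M : Matrix J K (DualNumber ℂ)) : fs Mᵀ = (fs M)ᵀ := rfl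

omit [Fintype K] in
theorem sn_transpose (M : Matrix J K (DualNumber ℂ)) : sn Mᵀ = (sn M)ᵀ := rfl

omit [Fintype K] in
theorem fs_kron {J' K' : Type} (M : Matrix J K (DualNumber ℂ)) (N : Matrix J' K' (DualNumber ℂ)) :
    fs (M ⊗ₖ N) = fs M ⊗ₖ fs N := by
  ext a b; simp [fs, kroneckerMap_apply]

omit [Fintype K] in
theorem sn_kron {J' K' : Type} (M : Matrix J K (DualNumber ℂ)) (N : Matrix J' K' (DualNumber ℂ)) :
    sn (M ⊗ₖ N) = fs M ⊗ₖ sn N + sn M ⊗ₖ fs N := by
  ext a b
  simp only [fs, sn, kroneckerMap_apply, Matrix.map_apply, Matrix.add_apply, TrivSqZeroExt.snd_mul,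
    smul_eq_mul, op_smul_eq_smul]
  ring

omit [Fintype K] in
theorem fs_alg (M : Matrix J K ℂ) : fs (M.map (algebraMap ℂ (DualNumber ℂ))) = M := by
  ext a b
  exact (TrivSqZeroExt.fstHom ℂ ℂ ℂ).commutes (M a b)

omit [Fintype K] in
theorem sn_alg (M : Matrix J K ℂ) : sn (M.map (algebraMap ℂ (DualNumber ℂ))) = 0 := by
  ext a b
  exact TrivSqZeroExt.snd_inl ℂ (M a b)

end Dual

omit [Fintype ι] in
theorem fs_onePlus (X : Matrix ι ι ℂ) : fs (onePlus X) = 1 := by
  ext a b; simp [fs, onePlus]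

omit [Fintype ι] in
theorem sn_onePlus (X : Matrix ι ι ℂ) : sn (onePlus X) = X := by
  ext a b; simp [sn, onePlus]

/-! ### Isometries -/

theorem tangent_iso {S : Set (Matrix ι ι ℂ)} {X ψ : Matrix ι ι ℂ} (hX : X ∈ tangent S)
    (hS : ∀ g ∈ S, gᵀ * ψ * g = ψ) : Xᵀ * ψ + ψ * X = 0 := by
  ext a b
  set E : Matrix ι ι (MvPolynomial (ι × ι) ℂ) :=
    (gen ℂ)ᵀ * ψ.map MvPolynomial.C * gen ℂ - ψ.map MvPolynomial.C with hE
  have h1 : ∀ {A : Type} [CommRing A] [Algebra ℂ A] (g : Matrix ι ι A),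
      E.map (MvPolynomial.aeval (R := ℂ) fun e : ι × ι => g e.1 e.2) =
        gᵀ * ψ.map (algebraMap ℂ A) * g - ψ.map (algebraMap ℂ A) := by
    intro A _ _ g
    rw [hE, Matrix.map_sub _ (map_sub _), Matrix.map_mul, Matrix.map_mul, Matrix.transpose_map,
      aeval_gen, map_C]
  have h2 := hX (E a b) (fun g hg => by
    have h3 := congrFun (congrFun (h1 g) a) b
    rw [Matrix.map_apply] at h3
    rw [h3, Algebra.algebraMap_self, RingHom.coe_id, Matrix.map_id, hS g hg, sub_self]
    rfl)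
  have h4 := congrFun (congrFun (h1 (onePlus X)) a) b
  rw [Matrix.map_apply, h2] at h4
  have h5 : sn ((onePlus X)ᵀ * ψ.map (algebraMap ℂ (DualNumber ℂ)) * onePlus X -
      ψ.map (algebraMap ℂ (DualNumber ℂ))) a b = 0 := by
    rw [sn, Matrix.map_apply, ← h4, TrivSqZeroExt.snd_zero]
  rw [sn_sub, sn_mul, sn_mul, fs_mul, fs_transpose, sn_transpose, fs_onePlus, sn_onePlus, fs_alg,
    sn_alg, Matrix.transpose_one, Matrix.one_mul, Matrix.mul_zero, Matrix.mul_one, zero_add,
    sub_zero, add_comm] at h5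
  exact h5

/-- The polynomial form of `X ↦ g X g⁻¹` for isometries `g` of `ψ`. -/
noncomputable def sg {A : Type} [CommRing A] [Algebra ℂ A] (ψ : Matrix ι ι ℂ) (g : Matrix ι ι A) :
    Matrix (ι × ι) (ι × ι) A :=
  g ⊗ₖ (ψ.map (algebraMap ℂ A) * g * (ψ⁻¹).map (algebraMap ℂ A))

theorem sg_eq {ψ g : Matrix ι ι ℂ} (hψ : IsUnit ψ.det) (hg : gᵀ * ψ * g = ψ) : sg ψ g = adm g := by
  have hgu : IsUnit g.det := by
    have := congrArg Matrix.det hg
    rw [Matrix.det_mul] at this
    exact isUnit_of_mul_isUnit_right (this ▸ hψ)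
  rw [sg, adm, Algebra.algebraMap_self, RingHom.coe_id, Matrix.map_id, Matrix.map_id]
  congr 1
  rw [transpose_inv]
  symm
  apply Matrix.inv_eq_right_inv
  calc gᵀ * (ψ * g * ψ⁻¹) = (gᵀ * ψ * g) * ψ⁻¹ := by simp only [Matrix.mul_assoc]
    _ = 1 := by rw [hg, Matrix.mul_nonsing_inv _ hψ]

/-- Commutation with `X`. -/
noncomputable def adM (X : Matrix ι ι ℂ) : Matrix (ι × ι) (ι × ι) ℂ := X ⊗ₖ 1 - 1 ⊗ₖ Xᵀ

/-- An operator with a finite orbit commutes with the tangent vectors. -/
theorem tangent_orbit {S : Set (Matrix ι ι ℂ)} {X ψ : Matrix ι ι ℂ} (hX : X ∈ tangent S)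
    (hψ : IsUnit ψ.det) (hS : ∀ g ∈ S, gᵀ * ψ * g = ψ) {T : Matrix (ι × ι) (ι × ι) ℂ}
    {O : Set (Matrix (ι × ι) (ι × ι) ℂ)} (hO : O.Finite)
    (hT : ∀ g ∈ S, adm g * T * adm g⁻¹ ∈ O) : adM X * T = T * adM X := by
  classical
  rcases isEmpty_or_nonempty ι with hem | hne
  · exact Subsingleton.elim _ _
  -- the equations
  set E : Matrix (ι × ι) (ι × ι) ℂ → Matrix (ι × ι) (ι × ι) (MvPolynomial (ι × ι) ℂ) :=
    fun T' => sg ψ (gen ℂ) * T.map MvPolynomial.C - T'.map MvPolynomial.C * sg ψ (gen ℂ) with hE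
  have h1 : ∀ {A : Type} [CommRing A] [Algebra ℂ A] (g : Matrix ι ι A) (T' : Matrix (ι × ι) (ι × ι) ℂ),
      (E T').map (MvPolynomial.aeval (R := ℂ) fun e : ι × ι => g e.1 e.2) =
        sg ψ g * T.map (algebraMap ℂ A) - T'.map (algebraMap ℂ A) * sg ψ g := by
    intro A _ _ g T'
    have h2 : (sg ψ (gen ℂ)).map (MvPolynomial.aeval (R := ℂ) fun e : ι × ι => g e.1 e.2) =
        sg ψ g := by
      rw [sg, sg]
      have h3 : (ψ.map (algebraMap ℂ (MvPolynomial (ι × ι) ℂ)) * gen ℂ *
          (ψ⁻¹).map (algebraMap ℂ (MvPolynomial (ι × ι) ℂ))).map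
            (MvPolynomial.aeval (R := ℂ) fun e : ι × ι => g e.1 e.2) =
          ψ.map (algebraMap ℂ A) * g * (ψ⁻¹).map (algebraMap ℂ A) := by
        rw [Matrix.map_mul, Matrix.map_mul, aeval_gen, MvPolynomial.algebraMap_eq, map_C, map_C]
      ext x y
      have e1 := congrFun (congrFun (aeval_gen g) x.1) y.1
      have e2 := congrFun (congrFun h3 x.2) y.2
      rw [Matrix.map_apply] at e1 e2
      rw [Matrix.map_apply, kroneckerMap_apply, kroneckerMap_apply, map_mul, e1, e2]
    rw [hE]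
    simp only
    rw [Matrix.map_sub _ (map_sub _), Matrix.map_mul, Matrix.map_mul, h2, map_C, map_C]
  -- the entries in which `T` and `T'` differ
  have h4 : ∀ T' ∈ hO.toFinset.filter (fun T' => T' ≠ T), ∃ e : (ι × ι) × (ι × ι), T e.1 e.2 ≠ T' e.1 e.2 := by
    intro T' hT'
    rw [Finset.mem_filter] at hT'
    by_contra h5
    push Not at h5
    apply hT'.2
    ext a b
    exact (h5 (a, b)).symm
  choose! en hen using h4
  have h6 : ∀ T', fs (sg ψ (onePlus X) * T.map (algebraMap ℂ (DualNumber ℂ)) -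
      T'.map (algebraMap ℂ (DualNumber ℂ)) * sg ψ (onePlus X)) = T - T' := by
    intro T'
    rw [fs_sub, fs_mul, fs_mul, sg, fs_kron, fs_mul, fs_mul, fs_alg, fs_alg, fs_alg, fs_alg, fs_onePlus,
      Matrix.mul_one, Matrix.mul_nonsing_inv _ hψ, one_kronecker_one, Matrix.one_mul, Matrix.mul_one]
  have key : ∀ x y, sn (sg ψ (onePlus X) * T.map (algebraMap ℂ (DualNumber ℂ)) -
      T.map (algebraMap ℂ (DualNumber ℂ)) * sg ψ (onePlus X)) x y = 0 := by
    intro x y
    have h7 := tangent_of_finite hX (E T x y)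
      ((hO.toFinset.filter (fun T' => T' ≠ T)).image fun T' => E T' (en T').1 (en T').2)
      (fun g hg => by
        have hgu : IsUnit g.det := by
          have := congrArg Matrix.det (hS g hg)
          rw [Matrix.det_mul] at this
          exact isUnit_of_mul_isUnit_right (this ▸ hψ)
        have h8 : sg ψ g * T - (adm g * T * adm g⁻¹) * sg ψ g = 0 := by
          rw [sg_eq hψ (hS g hg), Matrix.mul_assoc _ (adm g⁻¹), adm_inv_mul hgu, Matrix.mul_one,
            sub_self]
        by_cases h9 : adm g * T * adm g⁻¹ = T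
        · left
          rw [h9] at h8
          have h10 := congrFun (congrFun (h1 g T) x) y
          rw [Matrix.map_apply, Algebra.algebraMap_self, RingHom.coe_id, Matrix.map_id, h8] at h10
          exact h10
        · right
          refine ⟨_, Finset.mem_image_of_mem _ (Finset.mem_filter.mpr ⟨by
            rw [Set.Finite.mem_toFinset]; exact hT g hg, h9⟩), ?_⟩
          have h10 := congrFun (congrFun (h1 g (adm g * T * adm g⁻¹))
            (en (adm g * T * adm g⁻¹)).1) (en (adm g * T * adm g⁻¹)).2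
          rw [Matrix.map_apply, Algebra.algebraMap_self, RingHom.coe_id, Matrix.map_id,
            Matrix.map_id, h8] at h10
          exact h10)
      (fun q hq => by
        obtain ⟨T', hT', rfl⟩ := Finset.mem_image.mp hq
        have h10 := congrFun (congrFun (h1 (onePlus X) T') (en T').1) (en T').2
        rw [Matrix.map_apply] at h10
        rw [h10]
        have h11 := congrFun (congrFun (h6 T') (en T').1) (en T').2
        rw [fs, Matrix.map_apply] at h11
        rw [h11, Matrix.sub_apply]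
        exact sub_ne_zero.mpr (hen T' hT'))
    have h12 := congrFun (congrFun (h1 (onePlus X) T) x) y
    rw [Matrix.map_apply, h7] at h12
    rw [sn, Matrix.map_apply, ← h12, TrivSqZeroExt.snd_zero]
  have hiso := tangent_iso hX hS
  have h13 : ψ * X * ψ⁻¹ = - Xᵀ := by
    have h14 : ψ * X = - (Xᵀ * ψ) := eq_neg_of_add_eq_zero_right hiso
    rw [h14, Matrix.neg_mul, Matrix.mul_assoc, Matrix.mul_nonsing_inv _ hψ, Matrix.mul_one]
  have h15 : sn (sg ψ (onePlus X)) = adM X := by
    simp only [sg, sn_kron, sn_mul, fs_mul, fs_alg, sn_alg, fs_onePlus, sn_onePlus, Matrix.mul_one,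
      Matrix.mul_nonsing_inv _ hψ, Matrix.mul_zero, Matrix.zero_mul, zero_add, add_zero, h13, adM]
    ext a b
    simp only [kroneckerMap_apply, Matrix.add_apply, Matrix.sub_apply, Matrix.neg_apply]
    ring
  have h16 : fs (sg ψ (onePlus X)) = 1 := by
    rw [sg, fs_kron, fs_mul, fs_mul, fs_alg, fs_alg, fs_onePlus, Matrix.mul_one,
      Matrix.mul_nonsing_inv _ hψ, one_kronecker_one]
  have h17 : adM X * T - T * adM X = 0 := by
    ext x y
    have h18 := key x y
    rw [sn_sub, sn_mul, sn_mul, h15, h16, fs_alg, sn_alg, Matrix.mul_zero, Matrix.zero_mul, zero_add,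
      add_zero] at h18
    exact h18
  exact sub_eq_zero.mp h17

end Pool.Agent.Helper79.HH
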